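import Pool.Agent.Horo.FDefs

open Topology Filter Set

namespace Horo

lemma isLT_of_LTAt {X : Type} [TopologicalSpace X] {A : AbDiff X} {U : Set ℂ} {Ψ : ℂ → X}
    (h : ∀ ζ ∈ U, LTAt A Ψ ζ) : IsLT A U Ψ :=
  ⟨fun ζ hζ => (h ζ hζ).1.continuousWithinAt, fun ζ hζ => (h ζ hζ).2⟩

theorem surfAsm (hd : Stmt_diag) (hb : Stmt_baseC)
    (hab : ∀ (C : Type) [TopologicalSpace C] [AddAction ℝ C], Stmt_abDiff C)
    (h1 : Stmt_ptPer) (h2 : Stmt_ptInj) (h3 : Stmt_ptSurj) (h4 : Stmt_cellAt)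
    (h5 : Stmt_wallAt) (h6 : Stmt_gapAt) (h7 : Stmt_slitAt) : Stmt_Surf := by
  intro B _ r θ ys x0 L t a2 G hB hr hθ0 hθ1 hys0 hys1 hG hx0 hx1 hL0 hL1 ht0 ht1
  have hP : Par B r θ ys x0 L t a2 G :=
    ⟨hB, fun j => (hr j).1, fun j => (hr j).2, hθ0, hθ1, hys0, hys1, hG, hx0, hx1, hL0, hL1,
      ht0, ht1⟩
  obtain ⟨D, hD⟩ := hd B r θ ys t a2 x0 L G (by omega) (fun j => (hr j).1) hG ht0 (by linarith)
    hys0 (by linarith) hx0 hL0 (by linarith)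
  obtain ⟨i1, i2, i3, i4⟩ := hb B r (by omega) (fun j => lt_of_lt_of_le one_pos (hr j).1)
  obtain ⟨j1, j2, j3, A, hA1, hA2, hA3⟩ := hab (CC B r) D
  have hA : GoodAb D A := ⟨hA1, hA2, hA3⟩
  refine ⟨⟨⟨D.X, A⟩, ptS θ x0 L D, ?_, ?_, ?_, ?_, ?_, ?_, ?_⟩⟩
  · exact h1 B r θ ys x0 L t a2 G hP D hD
  · exact h2 B r θ ys x0 L t a2 G hP D hD
  · exact h3 B r θ ys x0 L t a2 G hP D hD A hA
  · intro j σ
    apply isLT_of_LTAt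
    rintro ζ ⟨k1, k2, k3⟩
    exact h4 B r θ ys x0 L t a2 G hP D hD A hA j σ ζ k1 k2 k3
  · intro j σ
    apply isLT_of_LTAt
    rintro ζ ⟨k1, k2, k3⟩
    exact h5 B r θ ys x0 L t a2 G hP D hD A hA j σ ζ k1 k2 k3
  · intro j σ
    apply isLT_of_LTAt
    rintro ζ ⟨k1, k2, k3⟩
    exact h6 B r θ ys x0 L t a2 G hP D hD A hA j σ ζ k1 k2 k3
  · intro j σ
    apply isLT_of_LTAt
    rintro ζ ⟨k1, k2, k3⟩
    exact h7 B r θ ys x0 L t a2 G hP D hD A hA j σ ζ k1 k2 k3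

end Horo
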