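import Pool.Agent.Horo.FDefs

/-!
# Local translation maps in the cell
-/

open Topology Filter Set

namespace Horo

section

variable {B : ℕ} {r : ZMod B → ℝ}

lemma cellAt_small (j : ZMod B) (σ : ℤˣ) (hr : r j ≠ 0) (v w : ℝ) :
    (smallPt j σ (w / r j) : Cs B r) = (w - v) +ᵥ (smallPt j σ (v / r j) : Cs B r) := by
  have h : ((w / r j * r j : ℝ) : AddCircle (r j))
      = ((w - v : ℝ) : AddCircle (r j)) + ((v / r j * r j : ℝ) : AddCircle (r j)) := by
    rw [← AddCircle.coe_add]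
    congr 1
    field_simp
    ring
  show (⟨(j, σ), ((w / r j * r j : ℝ) : AddCircle (r j))⟩ : Cs B r)
    = ⟨(j, σ), ((w - v : ℝ) : AddCircle (r j)) + ((v / r j * r j : ℝ) : AddCircle (r j))⟩
  rw [h]

lemma cellAt_ptS (θ x0 L : ℝ) (D : Diagram (CC B r)) (j : ZMod B) (σ : ℤˣ) (z : ℂ)
    (h0 : 0 < z.re) (h1 : z.re < 1) : ptS θ x0 L D j σ z =
      if z.re < x0 then D.proj (D.pt (Sum.inl (smallPt j σ z.im)) z.re)
      else if z.re < x0 + L then
        D.proj (D.pt (Sum.inr (Sum.inl (Eup B r (smallPt j σ z.im)))) (z.re - x0))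
      else D.proj (D.pt (Sum.inr (Sum.inr (smallPt j σ z.im))) (z.re - x0 - L)) := by
  have hf : ⌊z.re⌋ = 0 := Int.floor_eq_zero_iff.mpr ⟨h0.le, h1⟩
  have hfr : Int.fract z.re = z.re := Int.fract_eq_self.mpr ⟨h0.le, h1⟩
  simp only [ptS, hf, hfr, Int.cast_zero, zero_mul, sub_zero]

end

lemma cellAt_Gcont {θ ys a2 : ℝ} {G : ℝ → ℝ} (hG : Coc θ ys a2 G) : Continuous G := by
  have : LipschitzWith 1 G := LipschitzWith.of_dist_le_mul fun x y => by
    rw [Real.dist_eq, Real.dist_eq]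
    simpa using hG.lip x y
  exact this.continuous

lemma cellAt_flcont {θ ys a2 : ℝ} {G : ℝ → ℝ} (hG : Coc θ ys a2 G) (t ρ : ℝ) (σ : ℤˣ) :
    Continuous (fun Z : ℂ => (fl t ρ G σ Z).re) := by
  have h := cellAt_Gcont hG
  simp only [fl]
  fun_prop

theorem cellAt (hInt : Stmt_ltInt) (hSeam : Stmt_ltSeam) (hReg : Stmt_regPts)
    (hBase : Stmt_baseC) (hEn : Stmt_Enear) (hCoc : Stmt_bendCoc) (hInv : Stmt_bendInv) :
    Stmt_cellAt := by
  intro B _ r θ ys x0 L t a2 G hP D hD A hA j σ ζ h0 h1 hn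
  have hB : 0 < B := lt_of_lt_of_le (by norm_num) hP.B2
  have hr0 : ∀ j, 0 < r j := fun j => lt_of_lt_of_le one_pos (hP.r1 j)
  have hrj : r j ≠ 0 := (hr0 j).ne'
  have ht : t ≤ 1 / 2 := by linarith [hP.t1]
  have hx0 := hP.x00
  have hL := hP.L0
  have hx1 := hP.x01
  have hL1 := hP.L1
  obtain ⟨hC1, hC2, hC3, hC4⟩ := hBase B r hB hr0
  obtain ⟨hb1, hb2, hb3, hb4, hb5⟩ := hCoc B r θ ys t a2 G hB hP.r1 hP.coc hP.t0 ht
  set c : Cs B r := smallPt j σ (ζ.im / r j) with hc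
  set x : ℝ := (fl t (r j) G σ ζ).re with hx
  have hy : (fl t (r j) G σ ζ).im = ζ.im / r j := rfl
  rw [hy] at hn
  -- the base point
  have hsm : ∀ Z : ℂ, (smallPt j σ (Z.im / r j) : Cs B r) = (Z.im - ζ.im) +ᵥ c := fun Z =>
    cellAt_small j σ hrj ζ.im Z.im
  -- the bends
  have hbl : ∀ Z : ℂ, D.bend (Sum.inl c) (Z.im - ζ.im)
      = t * (σ : ℤ) * (G (Z.im / r j) - G (ζ.im / r j)) := by
    intro Z
    rw [hD.bend]
    have := hb3 j σ (ζ.im / r j * r j) (Z.im - ζ.im)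
    rw [hc, smallPt, this]
    congr 3
    · field_simp
      ring
    · field_simp
  have hbr : ∀ Z : ℂ, D.bend (Sum.inr (Sum.inr c)) (Z.im - ζ.im)
      = t * (σ : ℤ) * (G (Z.im / r j) - G (ζ.im / r j)) := by
    intro Z
    rw [hD.bend]
    have := hb5 j σ (ζ.im / r j * r j) (Z.im - ζ.im)
    rw [hc, smallPt, this]
    congr 3
    · field_simp
      ring
    · field_simp
  have hre : ∀ Z : ℂ, (fl t (r j) G σ Z).re - x = Z.re - ζ.re
      - t * (σ : ℤ) * (G (Z.im / r j) - G (ζ.im / r j)) := by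
    intro Z
    rw [hx]
    simp only [fl]
    ring
  have him : ∀ Z : ℂ, (fl t (r j) G σ Z).im = Z.im / r j := fun Z => rfl
  -- continuity
  have hcont := cellAt_flcont hP.coc t (r j) σ
  have ev0 : ∀ᶠ Z in 𝓝 ζ, 0 < (fl t (r j) G σ Z).re :=
    (hcont.tendsto ζ).eventually (lt_mem_nhds h0)
  have ev1 : ∀ᶠ Z in 𝓝 ζ, (fl t (r j) G σ Z).re < 1 :=
    (hcont.tendsto ζ).eventually (gt_mem_nhds h1)
  -- near a regular height
  have hfr : (x0 ≤ x ∧ x ≤ x0 + L) → Int.fract (ζ.im / r j) ≠ 0 := by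
    intro h hf
    apply hn
    refine ⟨h.1, h.2, ⌊ζ.im / r j⌋, ?_⟩
    have := Int.floor_add_fract (ζ.im / r j)
    rw [hf, add_zero] at this
    exact this.symm
  have hE : (x0 ≤ x ∧ x ≤ x0 + L) → ∀ᶠ Z : ℂ in 𝓝 ζ,
      Eup B r (smallPt j σ (Z.im / r j)) = (Z.im - ζ.im) +ᵥ Eup B r c ∧
      D.bend (Sum.inr (Sum.inl (Eup B r c))) (Z.im - ζ.im)
        = t * (σ : ℤ) * (G (Z.im / r j) - G (ζ.im / r j)) := by
    intro h
    have hEE : Edn B r c = Eup B r c :=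
      (hReg B r θ ys x0 L t a2 G hP D hD j σ (ζ.im / r j)).2.2.2 (hfr h)
    obtain ⟨δ1, hδ1, hE1⟩ := hEn B r hB hr0 c
    obtain ⟨δ2, hδ2, hE2⟩ := hInv B r θ ys t a2 G hB hP.r1 hP.coc hP.t0 ht hP.ys0
      (by linarith [hP.ys1]) c
    have hev : ∀ᶠ Z : ℂ in 𝓝 ζ, |Z.im - ζ.im| < min δ1 δ2 := by
      have hc' : Continuous fun Z : ℂ => |Z.im - ζ.im| := by fun_prop
      have := hc'.tendsto ζ
      rw [sub_self, abs_zero] at this
      exact this.eventually (gt_mem_nhds (lt_min hδ1 hδ2))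
    filter_upwards [hev] with Z hZ
    have hZ1 := lt_of_lt_of_le hZ (min_le_left _ _)
    have hZ2 := lt_of_lt_of_le hZ (min_le_right _ _)
    rw [← hbl Z, hsm Z]
    rcases lt_trichotomy (Z.im - ζ.im) 0 with hu | hu | hu
    · rw [abs_of_neg hu] at hZ1 hZ2
      have e1 := (hE1 (-(Z.im - ζ.im)) (by linarith) hZ1).2.2.1
      have e2 := (hE2 (-(Z.im - ζ.im)) (by linarith) hZ2).2.1
      rw [neg_neg, hEE] at e1 e2
      exact ⟨e1, by rw [hD.bend, hD.bend, e2]⟩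
    · have z1 : (0 : ℝ) +ᵥ c = c :=
        @zero_vadd ℝ (Cs B r) _ (circlesAction (fun p : ZMod B × ℤˣ => r p.1)) c
      have z2 : (0 : ℝ) +ᵥ Eup B r c = Eup B r c :=
        @zero_vadd ℝ (Cb B r) _ (circlesAction (fun _ : ℤˣ => VV B r B)) _
      rw [hu, z1, z2]
      refine ⟨rfl, ?_⟩
      have e2 := (hE2 0 le_rfl hδ2).1
      rw [hD.bend, hD.bend, e2]
    · rw [abs_of_pos hu] at hZ1 hZ2
      have e1 := (hE1 (Z.im - ζ.im) hu hZ1).1
      have e2 := (hE2 (Z.im - ζ.im) hu.le hZ2).1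
      exact ⟨e1, by rw [hD.bend, hD.bend, e2]⟩
  rcases lt_trichotomy x x0 with hxx | hxx | hxx
  · -- stage 1
    apply hInt (CC B r) D A hA (Sum.inl c) x _ ζ h0 (by rw [hD.wid]; exact hxx)
    have ev2 : ∀ᶠ Z in 𝓝 ζ, (fl t (r j) G σ Z).re < x0 :=
      (hcont.tendsto ζ).eventually (gt_mem_nhds hxx)
    filter_upwards [ev0, ev1, ev2] with Z hZ0 hZ1 hZ2
    rw [cellAt_ptS θ x0 L D j σ _ hZ0 hZ1, if_pos hZ2, him, hsm, hbl]
    have e := hre Z
    have e' : (fl t (r j) G σ Z).re = x + (Z.re - ζ.re)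
      - t * (σ : ℤ) * (G (Z.im / r j) - G (ζ.im / r j)) := by linarith
    rw [e']
    rfl
  · -- on the seam between stages 1 and 2
    have hxm : x0 ≤ x ∧ x ≤ x0 + L := ⟨hxx.ge, by linarith⟩
    have hup : D.up.symm (Sum.inr (Sum.inl (Eup B r c))) = Sum.inl c := by
      rw [Equiv.symm_apply_eq, hD.up1]
    apply hSeam (CC B r) D A hA (Sum.inr (Sum.inl (Eup B r c))) _ ζ
      ((hReg B r θ ys x0 L t a2 G hP D hD j σ (ζ.im / r j)).2.1.mpr (hfr hxm))
    have ev2 : ∀ᶠ Z in 𝓝 ζ, (fl t (r j) G σ Z).re < x0 + L :=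
      (hcont.tendsto ζ).eventually (gt_mem_nhds (by show x < x0 + L; linarith))
    filter_upwards [ev0, ev1, ev2, hE hxm] with Z hZ0 hZ1 hZ2 hZE
    have e := hre Z
    rw [hZE.2]
    constructor
    · intro hw
      rw [cellAt_ptS θ x0 L D j σ _ hZ0 hZ1, if_neg (by linarith), if_pos hZ2, him, hZE.1]
      have e' : (fl t (r j) G σ Z).re - x0 = Z.re - ζ.re
        - t * (σ : ℤ) * (G (Z.im / r j) - G (ζ.im / r j)) := by linarith
      rw [e']
      rfl
    · intro hw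
      rw [cellAt_ptS θ x0 L D j σ _ hZ0 hZ1, if_pos (by linarith), him, hsm]
      have e' : (fl t (r j) G σ Z).re = x0 - -(Z.re - ζ.re
        - t * (σ : ℤ) * (G (Z.im / r j) - G (ζ.im / r j))) := by linarith
      rw [e', Diagram.ptL, hup, hD.wid]
      rfl
  · rcases lt_trichotomy x (x0 + L) with hxl | hxl | hxl
    · -- stage 2
      have hxm : x0 ≤ x ∧ x ≤ x0 + L := ⟨hxx.le, hxl.le⟩
      apply hInt (CC B r) D A hA (Sum.inr (Sum.inl (Eup B r c))) (x - x0) _ ζ (by linarith)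
        (by rw [hD.wid]; show x - x0 < L; linarith)
      have ev2 : ∀ᶠ Z in 𝓝 ζ, (fl t (r j) G σ Z).re < x0 + L :=
        (hcont.tendsto ζ).eventually (gt_mem_nhds hxl)
      have ev3 : ∀ᶠ Z in 𝓝 ζ, x0 < (fl t (r j) G σ Z).re :=
        (hcont.tendsto ζ).eventually (lt_mem_nhds hxx)
      filter_upwards [ev0, ev1, ev2, ev3, hE hxm] with Z hZ0 hZ1 hZ2 hZ3 hZE
      rw [cellAt_ptS θ x0 L D j σ _ hZ0 hZ1, if_neg (by linarith), if_pos hZ2, him, hZE.1, hZE.2]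
      have e := hre Z
      have e' : (fl t (r j) G σ Z).re - x0 = x - x0 + (Z.re - ζ.re)
        - t * (σ : ℤ) * (G (Z.im / r j) - G (ζ.im / r j)) := by linarith
      rw [e']
      rfl
    · -- on the seam between stages 2 and 3
      have hxm : x0 ≤ x ∧ x ≤ x0 + L := ⟨hxx.le, hxl.le⟩
      have hup : D.up.symm (Sum.inr (Sum.inr c)) = Sum.inr (Sum.inl (Eup B r c)) := by
        rw [Equiv.symm_apply_eq, hD.up2]
      apply hSeam (CC B r) D A hA (Sum.inr (Sum.inr c)) _ ζ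
        ((hReg B r θ ys x0 L t a2 G hP D hD j σ (ζ.im / r j)).2.2.1.mpr (hfr hxm))
      have ev3 : ∀ᶠ Z in 𝓝 ζ, x0 < (fl t (r j) G σ Z).re :=
        (hcont.tendsto ζ).eventually (lt_mem_nhds hxx)
      filter_upwards [ev0, ev1, ev3, hE hxm] with Z hZ0 hZ1 hZ3 hZE
      have e := hre Z
      rw [hbr Z]
      constructor
      · intro hw
        rw [cellAt_ptS θ x0 L D j σ _ hZ0 hZ1, if_neg (by linarith), if_neg (by linarith), him,
          hsm]
        have e' : (fl t (r j) G σ Z).re - x0 - L = Z.re - ζ.re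
          - t * (σ : ℤ) * (G (Z.im / r j) - G (ζ.im / r j)) := by linarith
        rw [e']
        rfl
      · intro hw
        rw [cellAt_ptS θ x0 L D j σ _ hZ0 hZ1, if_neg (by linarith), if_pos (by linarith), him,
          hZE.1]
        have e' : (fl t (r j) G σ Z).re - x0 = L - -(Z.re - ζ.re
          - t * (σ : ℤ) * (G (Z.im / r j) - G (ζ.im / r j))) := by linarith
        rw [e', Diagram.ptL, hup, hD.wid]
        rfl
    · -- stage 3
      apply hInt (CC B r) D A hA (Sum.inr (Sum.inr c)) (x - x0 - L) _ ζ (by linarith)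
        (by rw [hD.wid]; show x - x0 - L < 1 - x0 - L; linarith)
      have ev2 : ∀ᶠ Z in 𝓝 ζ, x0 + L < (fl t (r j) G σ Z).re :=
        (hcont.tendsto ζ).eventually (lt_mem_nhds hxl)
      filter_upwards [ev0, ev1, ev2] with Z hZ0 hZ1 hZ2
      rw [cellAt_ptS θ x0 L D j σ _ hZ0 hZ1, if_neg (by linarith), if_neg (by linarith), him, hsm,
        hbr]
      have e := hre Z
      have e' : (fl t (r j) G σ Z).re - x0 - L = x - x0 - L + (Z.re - ζ.re)
        - t * (σ : ℤ) * (G (Z.im / r j) - G (ζ.im / r j)) := by linarith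
      rw [e']
      rfl

end Horo
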