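import Pool.Agent.Horo.F.wallAt

set_option autoImplicit false

open Topology Filter Set

namespace Horo

/-- Local translation maps across the gap. -/
theorem gapAt (h1 : Stmt_ltInt) (h2 : Stmt_ltSeam) (h3 : Stmt_regPts) (h4 : Stmt_rep)
    (hb : Stmt_baseC) (hbc : Stmt_bendCoc) : Stmt_gapAt := by
  intro B _ r θ ys x0 L t a2 G hP D hD A hA j σ ζ hx hy0 hy1
  have hr0 : 0 < r j := lt_of_lt_of_le one_pos (hP.r1 j)
  have hy0' : ys < ζ.im / r j := hy0
  have hy1' : ζ.im / r j < 1 := hy1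
  have hys := hP.ys0
  have hfr : Int.fract (ζ.im / r j) = ζ.im / r j := by
    rw [Int.fract_eq_self]; constructor <;> linarith
  have key : LTAt A (fun Z => if 0 ≤ (fl t (r j) G σ Z).re then ptS θ x0 L D j σ (fl t (r j) G σ Z)
      else ptS θ x0 L D j σ (fl t (r j) G σ Z)) ζ := by
    refine wallAt_seam h1 h2 hb hbc B r θ ys x0 L t a2 G hP D hD A hA j σ σ ζ hx ?_ ?_ ?_
    · rw [(h3 B r θ ys x0 L t a2 G hP D hD j σ (ζ.im / r j)).1, hfr]
      exact ⟨(by linarith : (0 : ℝ) < ζ.im / r j).ne', hy0'.ne'⟩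
    · unfold Rup smallPt
      have e : (((ζ.im / r j + θ) * r j : ℝ) : AddCircle (r j))
          - ((θ * r j : ℝ) : AddCircle (r j)) = ((ζ.im / r j * r j : ℝ) : AddCircle (r j)) := by
        rw [← AddCircle.coe_sub]; congr 1; ring
      have hrep : repO ((ζ.im / r j * r j : ℝ) : AddCircle (r j)) = ζ.im / r j * r j := by
        refine (h4 (r j) hr0).2.2.1 _ (by nlinarith) ?_
        nlinarith
      simp only
      rw [e, if_neg (by rw [hrep, not_lt]; exact mul_le_mul_of_nonneg_right hy0'.le hr0.le)]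
    · have : ∀ᶠ y' in 𝓝 (ζ.im / r j), ys < y' ∧ y' < 1 :=
        (lt_mem_nhds hy0').and (gt_mem_nhds hy1')
      filter_upwards [this] with y' hy'
      have g1 := hP.coc.gap y' hy'.1.le hy'.2.le
      have g2 := hP.coc.gap (ζ.im / r j) hy0'.le hy1'.le
      have g4 : G (y' + θ) - G (ζ.im / r j + θ) = G y' - G (ζ.im / r j) := by linarith
      rw [g4]
  simpa only [ite_self] using key

end Horo
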