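import Pool.Agent.Horo.FDefs

/-! Local translation maps at interior points. -/

open Topology Filter Set

namespace Horo

section

variable {C : Type} [TopologicalSpace C] [AddAction ℝ C]

theorem ltInt_cont [BaseSpace C] (D : Diagram C) (x : C) (u s : ℂ → ℝ) (ζ : ℂ)
    (hu : ContinuousAt u ζ) (hs : ContinuousAt s ζ) :
    ContinuousAt (fun ζ' => D.proj (D.pt (u ζ' +ᵥ x) (s ζ'))) ζ := by
  have h1 : Continuous (D.proj) := continuous_quotient_mk'
  have h2 : ContinuousAt (fun ζ' => (D.pt (u ζ' +ᵥ x) (s ζ'))) ζ := by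
    have h3 : (fun ζ' => (D.pt (u ζ' +ᵥ x) (s ζ'))) = fun ζ' =>
        ((u ζ' +ᵥ x, Set.projIcc 0 1 zero_le_one (s ζ' / D.wid x)) : Diagram.Y C) := by
      funext ζ'
      unfold Diagram.pt
      rw [D.wid_vadd]
    rw [h3]
    apply ContinuousAt.prodMk
    · have h4 : ContinuousAt (fun ζ' : ℂ => ((u ζ', x) : ℝ × C)) ζ :=
        hu.prodMk continuousAt_const
      exact (BaseSpace.cont (C := C)).continuousAt.comp h4
    · exact continuous_projIcc.continuousAt.comp (hs.div_const _)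
  exact h1.continuousAt.comp h2

theorem ltInt_bend_zero (D : Diagram C) (x : C) : D.bend x 0 = 0 := by
  have h := D.bend_add x 0 0
  rw [add_zero, zero_vadd] at h
  linarith

theorem ltInt_bend_le (D : Diagram C) (x : C) (u : ℝ) : |D.bend x u| ≤ |u| := by
  have h1 := D.bend_le x u
  have h2 := D.κ_lt_one
  have h3 := abs_nonneg u
  nlinarith

theorem ltInt_bend_cont (D : Diagram C) (x : C) (ζ : ℂ) :
    ContinuousAt (fun ζ' : ℂ => D.bend x (ζ'.im - ζ.im)) ζ := by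
  unfold ContinuousAt
  show Tendsto _ _ (𝓝 (D.bend x (ζ.im - ζ.im)))
  rw [sub_self, ltInt_bend_zero]
  apply squeeze_zero_norm (a := fun ζ' : ℂ => |ζ'.im - ζ.im|)
  · intro ζ'
    rw [Real.norm_eq_abs]
    exact ltInt_bend_le D x _
  · have h : Tendsto (fun ζ' : ℂ => |ζ'.im - ζ.im|) (𝓝 ζ) (𝓝 |ζ.im - ζ.im|) := by
      apply Continuous.tendsto
      fun_prop
    simpa using h

theorem ltInt_P_self {X : Type} [TopologicalSpace X] (A : AbDiff X) (q : X) : A.P q q = 0 := by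
  unfold AbDiff.P
  rw [A.z_self, zero_pow (Nat.succ_ne_zero _)]

theorem ltInt_small (D : Diagram C) (x : C) (ζ : ℂ) {r : ℝ} (hr : 0 < r) :
    ∀ᶠ ζ' : ℂ in 𝓝 ζ, |ζ'.im - ζ.im| < r ∧
      |(ζ'.re - ζ.re) - D.bend x (ζ'.im - ζ.im)| < r := by
  have h1 : ContinuousAt (fun ζ' : ℂ => |ζ'.im - ζ.im|) ζ := by fun_prop
  have h2 : ContinuousAt (fun ζ' : ℂ => |(ζ'.re - ζ.re) - D.bend x (ζ'.im - ζ.im)|) ζ := by
    have h3 : ContinuousAt (fun ζ' : ℂ => ζ'.re - ζ.re) ζ := by fun_prop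
    exact (h3.sub (ltInt_bend_cont D x ζ)).abs
  have h4 := h1.eventually_lt (continuousAt_const (y := r)) (by simpa using hr)
  have h5 := h2.eventually_lt (continuousAt_const (y := r)) (by
    simp only [sub_self, ltInt_bend_zero]
    simpa using hr)
  filter_upwards [h4, h5] with ζ' h6 h7
  exact ⟨h6, h7⟩

end

theorem ltInt : Stmt_ltInt := by
  intro C _ _ _ _ _ D A hA x s Ψ ζ hs0 hs1 hΨ
  have hself : Ψ ζ = D.proj (D.pt x s) := by
    have h := hΨ.self_of_nhds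
    rw [sub_self, sub_self, ltInt_bend_zero, zero_vadd, add_zero, sub_zero] at h
    exact h
  set q := D.proj (D.pt x s) with hq
  refine ⟨?_, ?_, ?_⟩
  · have h1 : ContinuousAt (fun ζ' : ℂ => D.proj (D.pt ((ζ'.im - ζ.im) +ᵥ x)
        (s + (ζ'.re - ζ.re) - D.bend x (ζ'.im - ζ.im)))) ζ := by
      apply ltInt_cont D x (fun ζ' : ℂ => ζ'.im - ζ.im)
        (fun ζ' : ℂ => s + (ζ'.re - ζ.re) - D.bend x (ζ'.im - ζ.im)) ζ
      · fun_prop
      · have h3 : ContinuousAt (fun ζ' : ℂ => s + (ζ'.re - ζ.re)) ζ := by fun_prop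
        exact h3.sub (ltInt_bend_cont D x ζ)
    exact h1.congr_of_eventuallyEq hΨ
  · rw [hself]
    exact hA.ord_int x s hs0 hs1
  · obtain ⟨r, hr, hinc⟩ := (hA.prim q).1 x s hs0 hs1 (A.mem_source q)
    filter_upwards [hΨ, ltInt_small D x ζ hr] with ζ' h1 h2
    rw [hself, h1, add_sub_assoc, hinc _ _ h2.2 h2.1, ltInt_P_self, zero_add]
    apply Complex.ext
    · show (ζ'.re - ζ.re) - D.bend x (ζ'.im - ζ.im) + D.bend x (ζ'.im - ζ.im) = (ζ' - ζ).re
      rw [Complex.sub_re]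
      ring
    · show ζ'.im - ζ.im = (ζ' - ζ).im
      rw [Complex.sub_im]

end Horo
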