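import Pool.Agent.Horo.FDefs

/-! Local translation maps at regular seam points. -/

open Topology Filter Set

namespace Horo

section

variable {C : Type} [TopologicalSpace C] [AddAction ℝ C]

theorem ltSeam_cont [BaseSpace C] (D : Diagram C) (x : C) (u s : ℂ → ℝ) (ζ : ℂ)
    (hu : ContinuousAt u ζ) (hs : ContinuousAt s ζ) :
    ContinuousAt (fun ζ' => D.proj (D.pt (u ζ' +ᵥ x) (s ζ'))) ζ := by
  have h1 : Continuous (D.proj) := continuous_quotient_mk'
  have h2 : ContinuousAt (fun ζ' => (D.pt (u ζ' +ᵥ x) (s ζ'))) ζ := by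
    have h3 : (fun ζ' => (D.pt (u ζ' +ᵥ x) (s ζ'))) = fun ζ' =>
        ((u ζ' +ᵥ x, Set.projIcc 0 1 zero_le_one (s ζ' / D.wid x)) : Diagram.Y C) := by
      funext ζ'
      unfold Diagram.pt
      rw [D.wid_vadd]
    rw [h3]
    apply ContinuousAt.prodMk
    · have h4 : ContinuousAt (fun ζ' : ℂ => ((u ζ', x) : ℝ × C)) ζ :=
        hu.prodMk continuousAt_const
      exact (BaseSpace.cont (C := C)).continuousAt.comp h4
    · exact continuous_projIcc.continuousAt.comp (hs.div_const _)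
  exact h1.continuousAt.comp h2

theorem ltSeam_bend_zero (D : Diagram C) (x : C) : D.bend x 0 = 0 := by
  have h := D.bend_add x 0 0
  rw [add_zero, zero_vadd] at h
  linarith

theorem ltSeam_bend_le (D : Diagram C) (x : C) (u : ℝ) : |D.bend x u| ≤ |u| := by
  have h1 := D.bend_le x u
  have h2 := D.κ_lt_one
  have h3 := abs_nonneg u
  nlinarith

theorem ltSeam_bend_cont (D : Diagram C) (x : C) (ζ : ℂ) :
    ContinuousAt (fun ζ' : ℂ => D.bend x (ζ'.im - ζ.im)) ζ := by
  unfold ContinuousAt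
  show Tendsto _ _ (𝓝 (D.bend x (ζ.im - ζ.im)))
  rw [sub_self, ltSeam_bend_zero]
  apply squeeze_zero_norm (a := fun ζ' : ℂ => |ζ'.im - ζ.im|)
  · intro ζ'
    rw [Real.norm_eq_abs]
    exact ltSeam_bend_le D x _
  · have h : Tendsto (fun ζ' : ℂ => |ζ'.im - ζ.im|) (𝓝 ζ) (𝓝 |ζ.im - ζ.im|) := by
      apply Continuous.tendsto
      fun_prop
    simpa using h

theorem ltSeam_P_self {X : Type} [TopologicalSpace X] (A : AbDiff X) (q : X) :
    A.P q q = 0 := by
  unfold AbDiff.P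
  rw [A.z_self, zero_pow (Nat.succ_ne_zero _)]

theorem ltSeam_small (D : Diagram C) (x : C) (ζ : ℂ) {r : ℝ} (hr : 0 < r) :
    ∀ᶠ ζ' : ℂ in 𝓝 ζ, |ζ'.im - ζ.im| < r ∧
      |(ζ'.re - ζ.re) - D.bend x (ζ'.im - ζ.im)| < r := by
  have h1 : ContinuousAt (fun ζ' : ℂ => |ζ'.im - ζ.im|) ζ := by fun_prop
  have h2 : ContinuousAt (fun ζ' : ℂ => |(ζ'.re - ζ.re) - D.bend x (ζ'.im - ζ.im)|) ζ := by
    have h3 : ContinuousAt (fun ζ' : ℂ => ζ'.re - ζ.re) ζ := by fun_prop
    exact (h3.sub (ltSeam_bend_cont D x ζ)).abs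
  have h4 := h1.eventually_lt (continuousAt_const (y := r)) (by simpa using hr)
  have h5 := h2.eventually_lt (continuousAt_const (y := r)) (by
    simp only [sub_self, ltSeam_bend_zero]
    simpa using hr)
  filter_upwards [h4, h5] with ζ' h6 h7
  exact ⟨h6, h7⟩

/-- The right end of the annulus over `up⁻¹ y` is glued to `y`. -/
theorem ltSeam_glue (D : Diagram C) (y : C) :
    D.proj (D.pt (D.up.symm y) (D.wid (D.up.symm y))) = D.proj (D.pt y 0) := by
  have hw := D.wid_pos (D.up.symm y)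
  have h1 : ((D.pt (D.up.symm y) (D.wid (D.up.symm y))).2 : ℝ) = 1 := by
    unfold Diagram.pt
    rw [div_self hw.ne']
    simp
  have h2 : ((D.pt y 0).2 : ℝ) = 0 := by
    unfold Diagram.pt
    simp
  apply Quotient.sound
  show D.Rel _ _
  refine Or.inr ⟨Or.inr h1, Or.inl h2, ?_⟩
  unfold Diagram.base
  rw [if_pos h2, if_neg (by rw [h1]; norm_num)]
  show D.τ.SameCycle (D.up (D.up.symm y)) y
  rw [Equiv.apply_symm_apply]

end

theorem ltSeam : Stmt_ltSeam := by
  intro C _ _ _ _ _ D A hA y Ψ ζ hτ hΨ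
  have hself : Ψ ζ = D.proj (D.pt y 0) := by
    have h := hΨ.self_of_nhds.1 (by rw [sub_self, sub_self, ltSeam_bend_zero, sub_zero])
    rw [sub_self, sub_self, ltSeam_bend_zero, sub_zero] at h
    rw [h]
    show D.proj (D.pt ((0 : ℝ) +ᵥ y) 0) = _
    rw [zero_vadd]
  set q := D.proj (D.pt y 0) with hq
  refine ⟨?_, ?_, ?_⟩
  · -- continuity
    have hv : ContinuousAt (fun ζ' : ℂ => (ζ'.re - ζ.re) - D.bend y (ζ'.im - ζ.im)) ζ := by
      have h3 : ContinuousAt (fun ζ' : ℂ => ζ'.re - ζ.re) ζ := by fun_prop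
      exact h3.sub (ltSeam_bend_cont D y ζ)
    have hR : ContinuousAt (fun ζ' : ℂ => D.ptR y
        ((ζ'.re - ζ.re) - D.bend y (ζ'.im - ζ.im)) (ζ'.im - ζ.im)) ζ :=
      ltSeam_cont D y (fun ζ' : ℂ => ζ'.im - ζ.im) _ ζ (by fun_prop) hv
    have hL : ContinuousAt (fun ζ' : ℂ => D.ptL y
        (-((ζ'.re - ζ.re) - D.bend y (ζ'.im - ζ.im))) (ζ'.im - ζ.im)) ζ :=
      ltSeam_cont D (D.up.symm y) (fun ζ' : ℂ => ζ'.im - ζ.im)
        (fun ζ' : ℂ => D.wid (D.up.symm y) - -((ζ'.re - ζ.re) - D.bend y (ζ'.im - ζ.im))) ζ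
        (by fun_prop) (continuousAt_const.sub hv.neg)
    have hR0 : D.ptR y ((ζ.re - ζ.re) - D.bend y (ζ.im - ζ.im)) (ζ.im - ζ.im) = q := by
      rw [sub_self, sub_self, ltSeam_bend_zero, sub_zero]
      show D.proj (D.pt ((0 : ℝ) +ᵥ y) 0) = _
      rw [zero_vadd]
    have hL0 : D.ptL y (-((ζ.re - ζ.re) - D.bend y (ζ.im - ζ.im))) (ζ.im - ζ.im) = q := by
      rw [sub_self, sub_self, ltSeam_bend_zero, sub_zero, neg_zero]
      show D.proj (D.pt ((0 : ℝ) +ᵥ D.up.symm y) (D.wid (D.up.symm y) - 0)) = _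
      rw [zero_vadd, sub_zero]
      exact ltSeam_glue D y
    have hR1 : Tendsto (fun ζ' : ℂ => D.ptR y
        ((ζ'.re - ζ.re) - D.bend y (ζ'.im - ζ.im)) (ζ'.im - ζ.im)) (𝓝 ζ) (𝓝 q) := by
      rw [← hR0]; exact hR
    have hL1 : Tendsto (fun ζ' : ℂ => D.ptL y
        (-((ζ'.re - ζ.re) - D.bend y (ζ'.im - ζ.im))) (ζ'.im - ζ.im)) (𝓝 ζ) (𝓝 q) := by
      rw [← hL0]; exact hL
    clear hR hL
    rename' hR1 => hR, hL1 => hL
    unfold ContinuousAt
    rw [hself]
    rw [tendsto_def] at hR hL ⊢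
    intro N hN
    have hR' := hR N hN
    have hL' := hL N hN
    filter_upwards [hΨ, hR', hL'] with ζ' h1 h2 h3
    show Ψ ζ' ∈ N
    rcases le_or_gt 0 ((ζ'.re - ζ.re) - D.bend y (ζ'.im - ζ.im)) with h | h
    · rw [h1.1 h]; exact h2
    · rw [h1.2 h]; exact h3
  · rw [hself, hq, hA.ord_seam y]
    have : D.len y = 1 := by
      unfold Diagram.len
      rw [Function.minimalPeriod_eq_one_iff_isFixedPt]
      exact hτ
    rw [this]
  · obtain ⟨r, hr, hinc⟩ := (hA.prim q).2 y (A.mem_source q)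
    obtain ⟨r1, hr1, hb1⟩ := D.bend_up (D.up.symm y)
    obtain ⟨r2, hr2, hb2⟩ := D.bend_dn (D.up.symm y)
    rw [Equiv.apply_symm_apply] at hb1
    have hdn : D.dn (D.up.symm y) = y := hτ
    rw [hdn] at hb2
    have hr' : 0 < min r (min r1 r2) := lt_min hr (lt_min hr1 hr2)
    filter_upwards [hΨ, ltSeam_small D y ζ hr'] with ζ' h1 h2
    set u := ζ'.im - ζ.im with hu
    set v := (ζ'.re - ζ.re) - D.bend y u with hv
    have hu1 : |u| < r := h2.1.trans_le (min_le_left _ _)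
    have hu2 : |u| < r1 := h2.1.trans_le ((min_le_right _ _).trans (min_le_left _ _))
    have hu3 : |u| < r2 := h2.1.trans_le ((min_le_right _ _).trans (min_le_right _ _))
    have hv1 : |v| < r := h2.2.trans_le (min_le_left _ _)
    rcases le_or_gt 0 v with h | h
    · rw [hself, h1.1 h]
      have h3 := (hinc y (Equiv.Perm.SameCycle.refl _ _) v u h ((le_abs_self v).trans_lt hv1)
        hu1).1
      show A.P q (D.proj (D.pt (u +ᵥ y) v)) = _
      rw [h3, ltSeam_P_self, zero_add]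
      apply Complex.ext
      · show v + D.bend y u = (ζ' - ζ).re
        rw [Complex.sub_re, hv]
        ring
      · show u = (ζ' - ζ).im
        rw [Complex.sub_im]
    · rw [hself, h1.2 h]
      have h3 := (hinc y (Equiv.Perm.SameCycle.refl _ _) (-v) u (by linarith)
        ((neg_le_abs v).trans_lt hv1) hu1).2
      show A.P q (D.proj (D.pt (u +ᵥ D.up.symm y) (D.wid (D.up.symm y) - -v))) = _
      rw [h3, ltSeam_P_self, zero_add]
      have hbend : D.bend (D.up.symm y) u = D.bend y u := by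
        rcases le_or_gt 0 u with h4 | h4
        · exact (hb1 u h4 ((le_abs_self u).trans_lt hu2)).symm
        · have h5 := hb2 (-u) (by linarith) ((neg_le_abs u).trans_lt hu3)
          rw [neg_neg] at h5
          exact h5.symm
      apply Complex.ext
      · show - -v + D.bend (D.up.symm y) u = (ζ' - ζ).re
        rw [hbend, Complex.sub_re, hv]
        ring
      · show u = (ζ' - ζ).im
        rw [Complex.sub_im]

end Horo
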