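import Pool.Agent.Horo.FDefs
import Pool.Agent.Horo.D.abDiff

/-! Injectivity of `ptS` modulo the lattice. -/

open Topology Filter Set

namespace Horo

section

variable {C : Type} [TopologicalSpace C] [AddAction ℝ C] (D : Diagram C)

lemma ptinj_proj {c c' : C} {s s' : ℝ} (h0 : 0 ≤ s) (h1 : s < D.wid c) (h0' : 0 ≤ s')
    (h1' : s' < D.wid c') (hτ : s = 0 → D.τ c = c)
    (h : D.proj (D.pt c s) = D.proj (D.pt c' s')) : c = c' ∧ s = s' := by
  rcases eq_or_lt_of_le h0 with hs | hs
  · rcases eq_or_lt_of_le h0' with hs' | hs'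
    · rw [← hs, ← hs'] at h
      have h2 := abd_seam_eq D h
      have h3 : Function.IsFixedPt D.τ c := hτ hs.symm
      obtain ⟨i, hi⟩ := h2
      have h4 : (D.τ ^ i) c = c := Equiv.Perm.zpow_apply_eq_self_of_apply_eq_self h3 i
      rw [h4] at hi
      exact ⟨hi, hs.symm.trans hs'⟩
    · rw [← hs] at h
      exact (abd_int_ne_seam D hs' h1' h.symm).elim
  · rcases eq_or_lt_of_le h0' with hs' | hs'
    · rw [← hs'] at h
      exact (abd_int_ne_seam D hs h1 h).elim
    · have hw := D.wid_pos c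
      have h2 : ((D.pt c s).2 : ℝ) = s / D.wid c := abd_pt_snd D hs.le h1.le
      have h3 : (0 : ℝ) < (D.pt c s).2 := by rw [h2]; positivity
      have h4 : ((D.pt c s).2 : ℝ) < 1 := by rw [h2, div_lt_one hw]; exact h1
      rcases Quotient.exact h with h5 | ⟨h5, -, -⟩
      · have h6 : c = c' := congrArg Prod.fst h5
        subst h6
        refine ⟨rfl, ?_⟩
        have h7 : ((D.pt c s).2 : ℝ) = ((D.pt c s').2 : ℝ) := congrArg (fun p : Diagram.Y C => (p.2 : ℝ)) h5
        rw [h2, abd_pt_snd D hs'.le h1'.le] at h7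
        field_simp at h7
        exact h7
      · rcases h5 with h5 | h5
        · rw [h5] at h3; exact (lt_irrefl _ h3).elim
        · rw [h5] at h4; exact (lt_irrefl _ h4).elim

end

section

variable {B : ℕ} {r : ZMod B → ℝ}

lemma ptinj_small {j j' : ZMod B} {σ σ' : ℤˣ} {y y' : ℝ} (hr : r j ≠ 0)
    (h : (smallPt j σ y : Cs B r) = smallPt j' σ' y') :
    j = j' ∧ σ = σ' ∧ ∃ l : ℤ, y' = y + l := by
  unfold smallPt at h
  have h1 : (j, σ) = (j', σ') := congrArg Sigma.fst h
  have h2 : j = j' := congrArg Prod.fst h1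
  have h3 : σ = σ' := congrArg Prod.snd h1
  subst h2
  subst h3
  refine ⟨rfl, rfl, ?_⟩
  rw [Sigma.mk.injEq] at h
  have h4 := eq_of_heq h.2
  have h5 : ((y' * r j - y * r j : ℝ) : AddCircle (r j)) = 0 := by
    rw [AddCircle.coe_sub, h4, sub_self]
  rw [AddCircle.coe_eq_zero_iff] at h5
  obtain ⟨l, hl⟩ := h5
  refine ⟨l, ?_⟩
  rw [zsmul_eq_mul] at hl
  have h6 : (y' - y - l) * r j = 0 := by linarith
  rcases mul_eq_zero.mp h6 with h7 | h7
  · linarith
  · exact (hr h7).elim

end

theorem ptInj (hreg : Stmt_regPts) (hE : Stmt_Ebij) : Stmt_ptInj := by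
  intro B _ r θ ys x0 L t a2 G hP D hD j σ z j' σ' z' hz hz' h
  have hB0 : 0 < B := by have := hP.B2; omega
  have hr0 : ∀ j, 0 < r j := fun j => lt_of_lt_of_le one_pos (hP.r1 j)
  have hinj := (hE B r hB0 hr0).1.1
  have hx0 := hP.x00
  have hx1 := hP.x01
  have hL0 := hP.L0
  have hL1 := hP.L1
  -- final step: equal normalised data give equality modulo the lattice
  have fin : ∀ {a b : ℂ}, Int.fract a.re = Int.fract b.re →
      (∃ l : ℤ, b.im - ⌊b.re⌋ * θ = a.im - ⌊a.re⌋ * θ + l) →
      ∃ k l : ℤ, b = a + lat θ k l := by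
    rintro a b h1 ⟨l, hl⟩
    refine ⟨⌊b.re⌋ - ⌊a.re⌋, l, ?_⟩
    apply Complex.ext
    · have h2 := Int.floor_add_fract a.re
      have h3 := Int.floor_add_fract b.re
      simp only [lat, Complex.add_re]
      push_cast
      linarith
    · simp only [lat, Complex.add_im]
      push_cast
      linarith
  -- regularity on the left boundary
  have regA : ∀ (j : ZMod B) (σ : ℤˣ) (z : ℂ), Nonsing θ ys x0 L z → Int.fract z.re = 0 →
      D.τ (Sum.inl (smallPt j σ (z.im - ⌊z.re⌋ * θ))) = Sum.inl (smallPt j σ (z.im - ⌊z.re⌋ * θ)) := by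
    intro j σ z hz h0
    refine (hreg B r θ ys x0 L t a2 G hP D hD j σ _).1.mpr ⟨?_, ?_⟩
    · intro hy
      refine (hz ⌊z.re⌋ ⌊z.im - ⌊z.re⌋ * θ⌋).1 ?_
      have h2 := Int.floor_add_fract z.re
      have h3 := Int.floor_add_fract (z.im - ⌊z.re⌋ * θ)
      apply Complex.ext
      · simp only [lat]; linarith
      · simp only [lat]; linarith
    · intro hy
      refine (hz ⌊z.re⌋ ⌊z.im - ⌊z.re⌋ * θ⌋).2.1 ?_
      have h2 := Int.floor_add_fract z.re
      have h3 := Int.floor_add_fract (z.im - ⌊z.re⌋ * θ)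
      apply Complex.ext
      · simp only [lat, Complex.add_re]; linarith
      · simp only [lat, Complex.add_im]; linarith
  have regB : ∀ (j : ZMod B) (σ : ℤˣ) (z : ℂ), Nonsing θ ys x0 L z → Int.fract z.re - x0 = 0 →
      D.τ (Sum.inr (Sum.inl (Eup B r (smallPt j σ (z.im - ⌊z.re⌋ * θ))))) =
        Sum.inr (Sum.inl (Eup B r (smallPt j σ (z.im - ⌊z.re⌋ * θ)))) := by
    intro j σ z hz h0
    refine (hreg B r θ ys x0 L t a2 G hP D hD j σ _).2.1.mpr ?_
    intro hy
    refine (hz ⌊z.re⌋ ⌊z.im - ⌊z.re⌋ * θ⌋).2.2.1 ?_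
    have h2 := Int.floor_add_fract z.re
    have h3 := Int.floor_add_fract (z.im - ⌊z.re⌋ * θ)
    apply Complex.ext
    · simp only [lat, Complex.add_re]; linarith
    · simp only [lat, Complex.add_im]; linarith
  have regC : ∀ (j : ZMod B) (σ : ℤˣ) (z : ℂ), Nonsing θ ys x0 L z →
      Int.fract z.re - x0 - L = 0 →
      D.τ (Sum.inr (Sum.inr (smallPt j σ (z.im - ⌊z.re⌋ * θ)))) =
        Sum.inr (Sum.inr (smallPt j σ (z.im - ⌊z.re⌋ * θ))) := by
    intro j σ z hz h0
    refine (hreg B r θ ys x0 L t a2 G hP D hD j σ _).2.2.1.mpr ?_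
    intro hy
    refine (hz ⌊z.re⌋ ⌊z.im - ⌊z.re⌋ * θ⌋).2.2.2 ?_
    have h2 := Int.floor_add_fract z.re
    have h3 := Int.floor_add_fract (z.im - ⌊z.re⌋ * θ)
    apply Complex.ext
    · simp only [lat, Complex.add_re]; linarith
    · simp only [lat, Complex.add_im]; linarith
  have wA : ∀ c, D.wid (Sum.inl c) = x0 := fun c => hD.wid _
  have wB : ∀ c, D.wid (Sum.inr (Sum.inl c)) = L := fun c => hD.wid _
  have wC : ∀ c, D.wid (Sum.inr (Sum.inr c)) = 1 - x0 - L := fun c => hD.wid _
  have f0 := Int.fract_nonneg z.re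
  have f1 := Int.fract_lt_one z.re
  have f0' := Int.fract_nonneg z'.re
  have f1' := Int.fract_lt_one z'.re
  unfold ptS at h
  by_cases hA : Int.fract z.re < x0
  · rw [if_pos hA] at h
    by_cases hA' : Int.fract z'.re < x0
    · rw [if_pos hA'] at h
      obtain ⟨hc, hs⟩ := ptinj_proj D f0 (by rw [wA]; exact hA) f0' (by rw [wA]; exact hA')
        (regA j σ z hz) h
      obtain ⟨e1, e2, e3⟩ := ptinj_small (hr0 j).ne' (Sum.inl.inj hc)
      exact ⟨e1, e2, fin hs e3⟩
    · rw [if_neg hA'] at h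
      push Not at hA'
      by_cases hB' : Int.fract z'.re < x0 + L
      · rw [if_pos hB'] at h
        obtain ⟨hc, hs⟩ := ptinj_proj D f0 (by rw [wA]; exact hA) (by linarith)
          (by rw [wB]; linarith) (regA j σ z hz) h
        exact (Sum.inl_ne_inr hc).elim
      · rw [if_neg hB'] at h
        push Not at hB'
        obtain ⟨hc, hs⟩ := ptinj_proj D f0 (by rw [wA]; exact hA) (by linarith)
          (by rw [wC]; linarith) (regA j σ z hz) h
        exact (Sum.inl_ne_inr hc).elim
  · rw [if_neg hA] at h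
    push Not at hA
    by_cases hB : Int.fract z.re < x0 + L
    · rw [if_pos hB] at h
      by_cases hA' : Int.fract z'.re < x0
      · rw [if_pos hA'] at h
        obtain ⟨hc, hs⟩ := ptinj_proj D (by linarith) (by rw [wB]; linarith) f0'
          (by rw [wA]; exact hA') (regB j σ z hz) h
        exact (Sum.inr_ne_inl hc).elim
      · rw [if_neg hA'] at h
        push Not at hA'
        by_cases hB' : Int.fract z'.re < x0 + L
        · rw [if_pos hB'] at h
          obtain ⟨hc, hs⟩ := ptinj_proj D (by linarith) (by rw [wB]; linarith) (by linarith)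
            (by rw [wB]; linarith) (regB j σ z hz) h
          obtain ⟨e1, e2, e3⟩ := ptinj_small (hr0 j).ne' (hinj (Sum.inl.inj (Sum.inr.inj hc)))
          exact ⟨e1, e2, fin (by linarith) e3⟩
        · rw [if_neg hB'] at h
          push Not at hB'
          obtain ⟨hc, hs⟩ := ptinj_proj D (by linarith) (by rw [wB]; linarith) (by linarith)
            (by rw [wC]; linarith) (regB j σ z hz) h
          exact (Sum.inl_ne_inr (Sum.inr.inj hc)).elim
    · rw [if_neg hB] at h
      push Not at hB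
      by_cases hA' : Int.fract z'.re < x0
      · rw [if_pos hA'] at h
        obtain ⟨hc, hs⟩ := ptinj_proj D (by linarith) (by rw [wC]; linarith) f0'
          (by rw [wA]; exact hA') (regC j σ z hz) h
        exact (Sum.inr_ne_inl hc).elim
      · rw [if_neg hA'] at h
        push Not at hA'
        by_cases hB' : Int.fract z'.re < x0 + L
        · rw [if_pos hB'] at h
          obtain ⟨hc, hs⟩ := ptinj_proj D (by linarith) (by rw [wC]; linarith) (by linarith)
            (by rw [wB]; linarith) (regC j σ z hz) h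
          exact (Sum.inr_ne_inl (Sum.inr.inj hc)).elim
        · rw [if_neg hB'] at h
          push Not at hB'
          obtain ⟨hc, hs⟩ := ptinj_proj D (by linarith) (by rw [wC]; linarith) (by linarith)
            (by rw [wC]; linarith) (regC j σ z hz) h
          obtain ⟨e1, e2, e3⟩ := ptinj_small (hr0 j).ne' (Sum.inr.inj (Sum.inr.inj hc))
          exact ⟨e1, e2, fin (by linarith) e3⟩

end Horo
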