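import Pool.Agent.Horo.FDefs

/-!
# Periodicity of `ptS`
-/

open Topology Filter Set

namespace Horo

theorem smallPt_add_int {B : ℕ} {r : ZMod B → ℝ} (j : ZMod B) (σ : ℤˣ) (y : ℝ) (l : ℤ) :
    smallPt (B := B) (r := r) j σ (y + l) = smallPt j σ y := by
  unfold smallPt
  have h : (((y + l) * r j : ℝ) : AddCircle (r j)) = ((y * r j : ℝ) : AddCircle (r j)) := by
    have h1 : (y + l) * r j = y * r j + l • r j := by
      rw [zsmul_eq_mul]; ring
    rw [h1, AddCircle.coe_add, AddCircle.coe_zsmul, AddCircle.coe_period, smul_zero, add_zero]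
  rw [h]

theorem ptPer : Stmt_ptPer := by
  intro B _ r θ ys x0 L t a2 G _ D _ j σ z k l
  have hre : (z + lat θ k l).re = z.re + k := by simp [lat]
  have him : (z + lat θ k l).im = z.im + (k * θ + l) := by simp [lat]
  have hfr : Int.fract (z + lat θ k l).re = Int.fract z.re := by
    rw [hre, Int.fract_add_intCast]
  have hfl : (z + lat θ k l).im - (⌊(z + lat θ k l).re⌋ : ℤ) * θ
      = (z.im - (⌊z.re⌋ : ℤ) * θ) + l := by
    rw [hre, him, Int.floor_add_intCast]
    push_cast
    ring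
  have hsm : smallPt (B := B) (r := r) j σ ((z + lat θ k l).im - (⌊(z + lat θ k l).re⌋ : ℤ) * θ)
      = smallPt j σ (z.im - (⌊z.re⌋ : ℤ) * θ) := by
    rw [hfl, smallPt_add_int]
  unfold ptS
  rw [hfr, hsm]

end Horo
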