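import Pool.Agent.Horo.FDefs
import Pool.Agent.Horo.D.abDiff

/-! `ptS` is onto the regular points. -/

open Topology Filter Set

namespace Horo

private lemma int_zero_of {k : ℤ} (h1 : (-1 : ℝ) < k) (h2 : (k : ℝ) < 1) : k = 0 := by
  have a1 : (-1 : ℤ) < k := by exact_mod_cast h1
  have a2 : k < 1 := by exact_mod_cast h2
  omega

private lemma nonsing_of {θ ys x0 L a v : ℝ} (ha0 : 0 ≤ a) (ha1 : a < 1) (hv0 : 0 ≤ v)
    (hv1 : v < 1) (hy0 : 0 < ys) (hy1 : ys < 1) (hx0 : 0 < x0) (hL : 0 < L) (hxL : x0 + L < 1)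
    (h0 : a = 0 → v ≠ 0 ∧ v ≠ ys) (h1 : a = x0 → v ≠ 0) (h2 : a = x0 + L → v ≠ 0) :
    Nonsing θ ys x0 L ⟨a, v⟩ := by
  intro k l
  refine ⟨?_, ?_, ?_, ?_⟩
  · intro h
    have e1 : a = k := congrArg Complex.re h
    have e2 : v = k * θ + l := congrArg Complex.im h
    have hk : k = 0 := int_zero_of (by linarith) (by linarith)
    subst hk
    have hl : l = 0 := int_zero_of (by push_cast at e2; linarith) (by push_cast at e2; linarith)
    subst hl
    push_cast at e1 e2
    exact (h0 e1).1 (by linarith)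
  · intro h
    have e1 : a = 0 + k := congrArg Complex.re h
    have e2 : v = ys + (k * θ + l) := congrArg Complex.im h
    have hk : k = 0 := int_zero_of (by linarith) (by linarith)
    subst hk
    have hl : l = 0 := int_zero_of (by push_cast at e2; linarith) (by push_cast at e2; linarith)
    subst hl
    push_cast at e1 e2
    exact (h0 (by linarith)).2 (by linarith)
  · intro h
    have e1 : a = x0 + k := congrArg Complex.re h
    have e2 : v = 0 + (k * θ + l) := congrArg Complex.im h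
    have hk : k = 0 := int_zero_of (by linarith) (by linarith)
    subst hk
    have hl : l = 0 := int_zero_of (by push_cast at e2; linarith) (by push_cast at e2; linarith)
    subst hl
    push_cast at e1 e2
    exact h1 (by linarith) (by linarith)
  · intro h
    have e1 : a = x0 + L + k := congrArg Complex.re h
    have e2 : v = 0 + (k * θ + l) := congrArg Complex.im h
    have hk : k = 0 := int_zero_of (by linarith) (by linarith)
    subst hk
    have hl : l = 0 := int_zero_of (by push_cast at e2; linarith) (by push_cast at e2; linarith)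
    subst hl
    push_cast at e1 e2
    exact h2 (by linarith) (by linarith)

private lemma fract_eq_self' {a : ℝ} (h0 : 0 ≤ a) (h1 : a < 1) : Int.fract a = a :=
  Int.fract_eq_self.mpr ⟨h0, h1⟩

private lemma floor_zero' {a : ℝ} (h0 : 0 ≤ a) (h1 : a < 1) : ⌊a⌋ = 0 :=
  Int.floor_eq_zero_iff.mpr ⟨h0, h1⟩

private lemma small_surj (hrep : Stmt_rep) {B : ℕ} {r : ZMod B → ℝ} (hr : ∀ j, 0 < r j)
    (c : Cs B r) : ∃ (j : ZMod B) (σ : ℤˣ) (v : ℝ), 0 ≤ v ∧ v < 1 ∧ c = smallPt j σ v := by
  obtain ⟨⟨j, σ⟩, x⟩ := c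
  obtain ⟨h1, h2, h3⟩ := (hrep (r j) (hr j)).1 x
  refine ⟨j, σ, repO x / r j, div_nonneg h2 (hr j).le, (div_lt_one (hr j)).mpr h3, ?_⟩
  unfold smallPt
  rw [div_mul_cancel₀ _ (hr j).ne', h1]

theorem ptSurj (hrep : Stmt_rep) (hE : Stmt_Ebij) (hreg : Stmt_regPts) (hb : Stmt_baseC)
    (hfs : ∀ (C : Type) [TopologicalSpace C] [AddAction ℝ C], Stmt_finSupp C) :
    Stmt_ptSurj := by
  intro B _ r θ ys x0 L t a2 G hP D hD A hA p hp
  have hB : 0 < B := by have := hP.B2; omega
  have hr : ∀ j, 0 < r j := fun j => lt_of_lt_of_le one_pos (hP.r1 j)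
  have hx0 := hP.x00
  have hx1 := hP.x01
  have hL0 := hP.L0
  have hL1 := hP.L1
  have hy0 := hP.ys0
  have hy1 := hP.ys1
  have hxL : x0 + L < 1 := by linarith
  obtain ⟨hE1, -⟩ := hE B r hB hr
  obtain ⟨i1, i2, i3, -⟩ := hb B r hB hr
  have wid1 : ∀ c, D.wid (Sum.inl c) = x0 := fun c => hD.wid _
  have wid2 : ∀ c, D.wid (Sum.inr (Sum.inl c)) = L := fun c => hD.wid _
  have wid3 : ∀ c, D.wid (Sum.inr (Sum.inr c)) = 1 - x0 - L := fun c => hD.wid _
  -- values of ptS on the three stages
  have v1 : ∀ j σ a v, 0 ≤ a → a < x0 →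
      ptS θ x0 L D j σ ⟨a, v⟩ = D.proj (D.pt (Sum.inl (smallPt j σ v)) a) := by
    intro j σ a v h0 h1
    unfold ptS
    simp only
    rw [fract_eq_self' h0 (by linarith), floor_zero' h0 (by linarith), if_pos h1]
    simp
  have v2 : ∀ j σ a v, x0 ≤ a → a < x0 + L →
      ptS θ x0 L D j σ ⟨a, v⟩ =
        D.proj (D.pt (Sum.inr (Sum.inl (Eup B r (smallPt j σ v)))) (a - x0)) := by
    intro j σ a v h0 h1
    unfold ptS
    simp only
    rw [fract_eq_self' (by linarith) (by linarith), floor_zero' (by linarith) (by linarith),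
      if_neg (by linarith), if_pos h1]
    simp
  have v3 : ∀ j σ a v, x0 + L ≤ a → a < 1 →
      ptS θ x0 L D j σ ⟨a, v⟩ =
        D.proj (D.pt (Sum.inr (Sum.inr (smallPt j σ v))) (a - x0 - L)) := by
    intro j σ a v h0 h1
    unfold ptS
    simp only
    rw [fract_eq_self' (by linarith) (by linarith), floor_zero' (by linarith) (by linarith),
      if_neg (by linarith), if_neg (by linarith)]
    simp
  rcases abd_cases D p with ⟨x, s, h0, h1, hq⟩ | ⟨y, hq⟩
  · rcases x with c | c | c
    · obtain ⟨j, σ, v, hv0, hv1, rfl⟩ := small_surj hrep hr c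
      rw [wid1] at h1
      refine ⟨j, σ, ⟨s, v⟩, ?_, ?_⟩
      · exact nonsing_of h0.le (by linarith) hv0 hv1 hy0 (by linarith) hx0 hL0 hxL
          (fun h => by linarith) (fun h => by linarith) (fun h => by linarith)
      · rw [v1 j σ s v h0.le h1, hq]
    · obtain ⟨c, rfl⟩ := hE1.2 c
      obtain ⟨j, σ, v, hv0, hv1, rfl⟩ := small_surj hrep hr c
      rw [wid2] at h1
      refine ⟨j, σ, ⟨x0 + s, v⟩, ?_, ?_⟩
      · exact nonsing_of (by linarith) (by linarith) hv0 hv1 hy0 (by linarith) hx0 hL0 hxL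
          (fun h => by linarith) (fun h => by linarith) (fun h => by linarith)
      · rw [v2 j σ (x0 + s) v (by linarith) (by linarith), hq]
        congr 2
        ring
    · obtain ⟨j, σ, v, hv0, hv1, rfl⟩ := small_surj hrep hr c
      rw [wid3] at h1
      refine ⟨j, σ, ⟨x0 + L + s, v⟩, ?_, ?_⟩
      · exact nonsing_of (by linarith) (by linarith) hv0 hv1 hy0 (by linarith) hx0 hL0 hxL
          (fun h => by linarith) (fun h => by linarith) (fun h => by linarith)
      · rw [v3 j σ (x0 + L + s) v (by linarith) (by linarith), hq]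
        congr 2
        ring
  · have hlen : D.len y = 1 := by
      have e1 := (hfs (CC B r) D).2.1 y
      have e2 := hA.ord_seam y
      rw [← hq, hp] at e2
      omega
    have hfix : D.τ y = y := by
      have := Function.minimalPeriod_eq_one_iff_isFixedPt.mp hlen
      exact this
    rcases y with c | c | c
    · obtain ⟨j, σ, v, hv0, hv1, rfl⟩ := small_surj hrep hr c
      have h1 := ((hreg B r θ ys x0 L t a2 G hP D hD j σ v).1).mp hfix
      rw [fract_eq_self' hv0 hv1] at h1
      refine ⟨j, σ, ⟨0, v⟩, ?_, ?_⟩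
      · exact nonsing_of le_rfl (by linarith) hv0 hv1 hy0 (by linarith) hx0 hL0 hxL
          (fun _ => h1) (fun h => by linarith) (fun h => by linarith)
      · rw [v1 j σ 0 v le_rfl hx0, hq]
    · obtain ⟨c, rfl⟩ := hE1.2 c
      obtain ⟨j, σ, v, hv0, hv1, rfl⟩ := small_surj hrep hr c
      have h1 := ((hreg B r θ ys x0 L t a2 G hP D hD j σ v).2.1).mp hfix
      rw [fract_eq_self' hv0 hv1] at h1
      refine ⟨j, σ, ⟨x0, v⟩, ?_, ?_⟩
      · exact nonsing_of hx0.le (by linarith) hv0 hv1 hy0 (by linarith) hx0 hL0 hxL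
          (fun h => by linarith) (fun _ => h1) (fun h => by linarith)
      · rw [v2 j σ x0 v le_rfl (by linarith), hq, sub_self]
    · obtain ⟨j, σ, v, hv0, hv1, rfl⟩ := small_surj hrep hr c
      have h1 := ((hreg B r θ ys x0 L t a2 G hP D hD j σ v).2.2.1).mp hfix
      rw [fract_eq_self' hv0 hv1] at h1
      refine ⟨j, σ, ⟨x0 + L, v⟩, ?_, ?_⟩
      · exact nonsing_of (by linarith) (by linarith) hv0 hv1 hy0 (by linarith) hx0 hL0 hxL
          (fun h => by linarith) (fun h => by linarith) (fun _ => h1)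
      · rw [v3 j σ (x0 + L) v le_rfl (by linarith), hq]
        congr 2
        ring

end Horo
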