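import Pool.Agent.Horo.FDefs

/-! Regular left-boundary points of the concrete diagram. -/

open Topology Filter Set

namespace Horo

theorem regPts_coe (p y : ℝ) :
    ((y * p : ℝ) : AddCircle p) = ((Int.fract y * p : ℝ) : AddCircle p) := by
  have h0 : ((⌊y⌋ • p : ℝ) : AddCircle p) = 0 := (AddCircle.coe_eq_zero_iff p).2 ⟨⌊y⌋, rfl⟩
  have h1 : y * p = Int.fract y * p + ⌊y⌋ • p := by
    rw [zsmul_eq_mul, ← add_mul, Int.fract_add_floor]
  rw [h1, AddCircle.coe_add, h0, add_zero]

theorem regPts_repO (h1 : Stmt_rep) (p y : ℝ) (hp : 0 < p) :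
    repO ((y * p : ℝ) : AddCircle p) = Int.fract y * p := by
  rw [regPts_coe]
  exact (h1 p hp).2.2.1 _ (mul_nonneg (Int.fract_nonneg y) hp.le)
    (by nlinarith [Int.fract_lt_one y])

theorem regPts_repC (h1 : Stmt_rep) (p y : ℝ) (hp : 0 < p) (hy : Int.fract y ≠ 0) :
    repC ((y * p : ℝ) : AddCircle p) = Int.fract y * p := by
  rw [regPts_coe]
  have h0 : 0 < Int.fract y := lt_of_le_of_ne (Int.fract_nonneg y) (Ne.symm hy)
  exact (h1 p hp).2.2.2 _ (mul_pos h0 hp) (by nlinarith [Int.fract_lt_one y])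

theorem regPts_repC0 (h1 : Stmt_rep) (p y : ℝ) (hp : 0 < p) (hy : Int.fract y = 0) :
    repC ((y * p : ℝ) : AddCircle p) = p := by
  rw [regPts_coe, hy, zero_mul]
  have h0 : ((0 : ℝ) : AddCircle p) = ((p : ℝ) : AddCircle p) := by
    rw [AddCircle.coe_period, AddCircle.coe_zero]
  rw [h0]
  exact (h1 p hp).2.2.2 _ hp le_rfl

theorem regPts_VV (B : ℕ) [NeZero B] (r : ZMod B → ℝ) (hB : 2 ≤ B) (hr : ∀ j, 1 ≤ r j)
    (j : ZMod B) : r j < VV B r B := by
  have hj : j.val < B := ZMod.val_lt j
  have h1 : VV B r B = ∑ i ∈ Finset.range B, r (i : ZMod B) := rfl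
  have h2 : ∑ i ∈ Finset.range B, r (i : ZMod B)
      = r ((j.val : ℕ) : ZMod B) + ∑ i ∈ (Finset.range B).erase j.val, r (i : ZMod B) :=
    (Finset.add_sum_erase _ _ (Finset.mem_range.2 hj)).symm
  have h3 : ((Finset.range B).erase j.val).card = B - 1 := by
    rw [Finset.card_erase_of_mem (Finset.mem_range.2 hj), Finset.card_range]
  have h4 : 0 < ∑ i ∈ (Finset.range B).erase j.val, r (i : ZMod B) := by
    apply Finset.sum_pos
    · intro i _
      linarith [hr (i : ZMod B)]
    · rw [← Finset.card_pos, h3]; omega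
  rw [h1, h2, ZMod.natCast_zmod_val]
  linarith

theorem regPts_E (h1 : Stmt_rep) (B : ℕ) [NeZero B] (r : ZMod B → ℝ) (hB : 2 ≤ B)
    (hr : ∀ j, 1 ≤ r j) (j : ZMod B) (σ : ℤˣ) (y : ℝ) :
    Edn B r (smallPt j σ y) = Eup B r (smallPt j σ y) ↔ Int.fract y ≠ 0 := by
  have hp : 0 < r j := by linarith [hr j]
  constructor
  · intro h hy
    unfold Edn Eup smallPt at h
    simp only [Sigma.mk.injEq, heq_eq_eq, true_and] at h
    rw [regPts_repC0 h1 _ _ hp hy, regPts_repO h1 _ _ hp, hy, zero_mul, add_zero,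
      AddCircle.coe_add] at h
    have h' : ((r j : ℝ) : AddCircle (VV B r B)) = 0 := by
      have := congrArg (fun x => x - ((VV B r j.val : ℝ) : AddCircle (VV B r B))) h
      simpa using this
    obtain ⟨n, hn⟩ := (AddCircle.coe_eq_zero_iff _).1 h'
    rw [zsmul_eq_mul] at hn
    have hV := regPts_VV B r hB hr j
    have hV0 : 0 < VV B r B := lt_trans hp hV
    have n0 : (0 : ℝ) < n := by
      by_contra hcon
      have : (n : ℝ) ≤ 0 := not_lt.1 hcon
      nlinarith
    have n1 : (n : ℝ) < 1 := by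
      by_contra hcon
      have : (1 : ℝ) ≤ n := not_lt.1 hcon
      nlinarith
    have n0' : 0 < n := by exact_mod_cast n0
    have n1' : n < 1 := by exact_mod_cast n1
    omega
  · intro hy
    unfold Edn Eup smallPt
    simp only [Sigma.mk.injEq, heq_eq_eq, true_and]
    rw [regPts_repC h1 _ _ hp hy, regPts_repO h1 _ _ hp]

theorem regPts (h1 : Stmt_rep) (h2 : Stmt_Ebij) : Stmt_regPts := by
  intro B _ r θ ys x0 L t a2 G hP D hD j σ y
  have hr : ∀ j, 0 < r j := fun j => by linarith [hP.r1 j]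
  have hp : 0 < r j := hr j
  have hB : 0 < B := by have := hP.B2; omega
  have hE := regPts_E h1 B r hP.B2 hP.r1 j σ y
  obtain ⟨_, hdn⟩ := h2 B r hB hr
  refine ⟨?_, ?_, ?_, hE.2⟩
  · -- stage 1
    by_cases hc : Int.fract y < ys
    · have hz : Rup B r θ ys ⟨(j, -σ), ((y * r j : ℝ) : AddCircle (r j)) +
          ((θ * r j : ℝ) : AddCircle (r j))⟩ = smallPt j σ y := by
        unfold Rup smallPt
        simp only [add_sub_cancel_right]
        rw [regPts_repO h1 _ _ hp, if_pos (by nlinarith)]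
        simp
      have hup : D.up.symm (Sum.inl (smallPt j σ y)) = Sum.inr (Sum.inr ⟨(j, -σ),
          ((y * r j : ℝ) : AddCircle (r j)) + ((θ * r j : ℝ) : AddCircle (r j))⟩) := by
        rw [Equiv.symm_apply_eq, hD.up3, hz]
      rw [Diagram.τ_apply, hup, hD.dn3]
      unfold Rdn smallPt
      simp only [add_sub_cancel_right]
      by_cases hy : Int.fract y = 0
      · rw [regPts_repC0 h1 _ _ hp hy, if_neg (by nlinarith [hP.ys1])]
        simp only [hy, ne_eq, not_true_eq_false, false_and, iff_false]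
        intro hcon
        simp only [Sum.inl.injEq, Sigma.mk.injEq, Prod.mk.injEq] at hcon
        have := hcon.1.2
        rcases Int.units_eq_one_or σ with h | h <;> rw [h] at this <;> revert this <;> decide
      · rw [regPts_repC h1 _ _ hp hy, if_pos (by nlinarith)]
        refine ⟨fun _ => ⟨hy, hc.ne⟩, fun _ => ?_⟩
        simp
    · have hz : Rup B r θ ys ⟨(j, σ), ((y * r j : ℝ) : AddCircle (r j)) +
          ((θ * r j : ℝ) : AddCircle (r j))⟩ = smallPt j σ y := by
        unfold Rup smallPt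
        simp only [add_sub_cancel_right]
        rw [regPts_repO h1 _ _ hp, if_neg (by intro h; apply hc; nlinarith)]
      have hup : D.up.symm (Sum.inl (smallPt j σ y)) = Sum.inr (Sum.inr ⟨(j, σ),
          ((y * r j : ℝ) : AddCircle (r j)) + ((θ * r j : ℝ) : AddCircle (r j))⟩) := by
        rw [Equiv.symm_apply_eq, hD.up3, hz]
      rw [Diagram.τ_apply, hup, hD.dn3]
      unfold Rdn smallPt
      simp only [add_sub_cancel_right]
      have hy : Int.fract y ≠ 0 := by
        intro h
        rw [h] at hc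
        exact hc hP.ys0
      rw [regPts_repC h1 _ _ hp hy]
      by_cases hys : Int.fract y = ys
      · rw [if_pos (by rw [hys])]
        simp only [hys, ne_eq, not_true_eq_false, and_false, iff_false]
        intro hcon
        simp only [Sum.inl.injEq, Sigma.mk.injEq, Prod.mk.injEq] at hcon
        have := hcon.1.2
        rcases Int.units_eq_one_or σ with h | h <;> rw [h] at this <;> revert this <;> decide
      · have hlt : ys < Int.fract y := lt_of_le_of_ne (not_lt.1 hc) (Ne.symm hys)
        rw [if_neg (by intro h; nlinarith)]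
        simp only [true_iff]
        exact ⟨hy, hys⟩
  · -- stage 2
    have hup : D.up.symm (Sum.inr (Sum.inl (Eup B r (smallPt j σ y))))
        = Sum.inl (smallPt j σ y) := by
      rw [Equiv.symm_apply_eq, hD.up1]
    rw [Diagram.τ_apply, hup, hD.dn1, ← hE]
    simp only [Sum.inr.injEq, Sum.inl.injEq]
  · -- stage 3
    have hup : D.up.symm (Sum.inr (Sum.inr (smallPt j σ y)))
        = Sum.inr (Sum.inl (Eup B r (smallPt j σ y))) := by
      rw [Equiv.symm_apply_eq, hD.up2]
    obtain ⟨c, hc⟩ := hdn.2 (Eup B r (smallPt j σ y))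
    rw [Diagram.τ_apply, hup, ← hc, hD.dn2, ← hE, ← hc]
    simp only [Sum.inr.injEq]
    constructor
    · intro h; rw [h]
    · intro h; exact (hdn.1 h).symm

end Horo
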