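import Pool.Agent.Horo.FDefs

/-! Local translation maps across the slit. -/

open Topology Filter Set

namespace Horo

section

variable {B : ℕ} [NeZero B] {r : ZMod B → ℝ}

lemma slitAt_VV_succ (n : ℕ) : VV B r (n + 1) = VV B r n + r (n : ZMod B) := by
  unfold VV
  rw [Finset.sum_range_succ]

/-- the block below block `j` -/
lemma slitAt_prev (j : ZMod B) : ∃ e : ℕ, (e = 0 ∨ e = 1) ∧ (j - 1).val + 1 = j.val + e * B ∧
    VV B r (j - 1).val + r (j - 1) = VV B r j.val + e * VV B r B := by
  set k := (j - 1).val with hk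
  have hkB : k < B := ZMod.val_lt _
  have hcast : ((k : ℕ) : ZMod B) = j - 1 := by
    rw [hk]
    exact ZMod.natCast_zmod_val _
  have hcast1 : (((k + 1 : ℕ)) : ZMod B) = j := by
    push_cast
    rw [hcast]
    ring
  have hV : VV B r k + r (j - 1) = VV B r (k + 1) := by
    rw [slitAt_VV_succ, hcast]
  rcases Nat.lt_or_ge (k + 1) B with hlt | hge
  · have hj : j.val = k + 1 := by
      rw [← hcast1]
      exact ZMod.val_cast_of_lt hlt
    refine ⟨0, Or.inl rfl, by rw [hj]; simp, ?_⟩
    rw [hV, hj]
    simp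
  · have hkB1 : k + 1 = B := by omega
    have hj0 : j = 0 := by
      rw [← hcast1, hkB1]
      exact ZMod.natCast_self B
    have hj : j.val = 0 := by
      rw [hj0]
      exact ZMod.val_zero
    refine ⟨1, Or.inr rfl, by rw [hj, hkB1]; simp, ?_⟩
    rw [hV, hkB1, hj]
    have : VV B r 0 = 0 := by
      unfold VV
      simp
    rw [this]
    simp

end

theorem slitAt (hlt : Stmt_ltInt) (hbase : Stmt_baseC) (hrep : Stmt_rep) (hGG : Stmt_GG)
    (hbend : Stmt_bendCoc) : Stmt_slitAt := by
  intro B _ r θ ys x0 L t a2 G hP D hD A hA j σ ζ hζ hup hdn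
  have hB : 0 < B := by have := hP.B2; omega
  have hr0 : ∀ i, 0 < r i := fun i => lt_of_lt_of_le one_pos (hP.r1 i)
  obtain ⟨i1, i2, i3, i4⟩ := hbase B r hB hr0
  obtain ⟨_, _, _, hbb, _⟩ := hbend B r θ ys t a2 G hB hP.r1 hP.coc hP.t0
    (by linarith [hP.t1])
  obtain ⟨gper, _, garc⟩ := hGG B r θ ys a2 G hB hP.r1 hP.coc
  set V : ℝ := VV B r j.val with hV
  set R : ℝ := VV B r B with hR
  set sg : ℝ := ((σ : ℤ) : ℝ) with hsg
  -- the potential near the height `V`
  have hGV : GG B r a2 G V = j.val * a2 := by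
    have := garc j 0 le_rfl (hr0 j).le
    rw [add_zero, zero_div, hP.coc.zero, add_zero] at this
    exact this
  have hGpos : ∀ w : ℝ, 0 ≤ w → w < 1 → GG B r a2 G (V + w) = j.val * a2 + G (w / r j) := by
    intro w hw hw1
    exact garc j w hw (by linarith [hP.r1 j])
  obtain ⟨e, he, he1, he2⟩ := slitAt_prev (r := r) j
  have hGneg : ∀ w : ℝ, -1 < w → w < 0 →
      GG B r a2 G (V + w) = j.val * a2 + G (w / r (j - 1)) := by
    intro w hw hw1
    have h1 := garc (j - 1) (r (j - 1) + w) (by linarith [hP.r1 (j - 1)]) (by linarith)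
    have h2 : VV B r (j - 1).val + (r (j - 1) + w) = V + w + e * R := by
      linarith
    rw [h2] at h1
    have h3 : GG B r a2 G (V + w + e * R) = GG B r a2 G (V + w) + e * (B * a2) := by
      rcases he with h | h
      · subst h
        simp
      · subst h
        simp only [Nat.cast_one, one_mul]
        exact gper _
    have h4 : (r (j - 1) + w) / r (j - 1) = w / r (j - 1) + 1 := by
      have := (hr0 (j - 1)).ne'
      field_simp
      ring
    rw [h3, h4, hP.coc.per] at h1
    have h5 : (((j - 1).val : ℝ)) + 1 = j.val + e * B := by exact_mod_cast he1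
    linear_combination h1 + a2 * h5
  -- the base point and the position
  set c : CC B r := Sum.inr (Sum.inl ⟨σ, ((V + ζ.im : ℝ) : AddCircle R)⟩) with hc
  have hbc : ∀ u, D.bend c u = t * sg * (GG B r a2 G (V + ζ.im + u) - GG B r a2 G (V + ζ.im)) := by
    intro u
    rw [hD.bend]
    exact hbb σ (V + ζ.im) u
  set pos : ℂ → ℝ := fun Z => Z.re - t * sg * (GG B r a2 G (V + Z.im) - GG B r a2 G V) - x0
    with hpos
  have hposU : ∀ Z : ℂ, 0 ≤ Z.im → Z.im < 1 / 2 → (fl t (r j) G σ Z).re = x0 + pos Z := by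
    intro Z h0 h1
    simp only [fl, hpos]
    rw [hGpos Z.im h0 (by linarith), hGV]
    ring
  have hposD : ∀ Z : ℂ, Z.im < 0 → -(1 / 2) < Z.im →
      (fl t (r (j - 1)) G σ Z).re = x0 + pos Z := by
    intro Z h0 h1
    simp only [fl, hpos]
    rw [hGneg Z.im (by linarith) h0, hGV]
    ring
  have hζ' := abs_lt.mp hζ
  have hs : 0 < pos ζ ∧ pos ζ < L := by
    rcases le_or_gt 0 ζ.im with h0 | h0
    · have h1 := hup h0
      rw [hposU ζ h0 hζ'.2] at h1
      constructor <;> linarith [h1.1, h1.2]
    · have h1 := hdn h0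
      rw [hposD ζ h0 hζ'.1] at h1
      constructor <;> linarith [h1.1, h1.2]
  have hwid : D.wid c = L := by
    rw [hD.wid]
    rfl
  -- continuity of the position
  have hGGc : Continuous (GG B r a2 G) := by
    obtain ⟨_, glip, _⟩ := hGG B r θ ys a2 G hB hP.r1 hP.coc
    have : LipschitzWith 1 (GG B r a2 G) := by
      apply LipschitzWith.of_dist_le_mul
      intro x y
      rw [Real.dist_eq, Real.dist_eq]
      simpa using glip x y
    exact this.continuous
  have hposc : Continuous pos := by
    apply Continuous.sub _ continuous_const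
    apply Continuous.sub Complex.continuous_re
    apply Continuous.mul continuous_const
    apply Continuous.sub _ continuous_const
    exact hGGc.comp (continuous_const.add Complex.continuous_im)
  -- value of `ptS` in the slit stage
  have hptS : ∀ (i : ZMod B) (z : ℂ), x0 < z.re → z.re < x0 + L →
      ptS θ x0 L D i σ z = D.proj (D.pt (Sum.inr (Sum.inl (Eup B r (smallPt i σ z.im))))
        (z.re - x0)) := by
    intro i z h1 h2
    have hfl : ⌊z.re⌋ = 0 := by
      rw [Int.floor_eq_zero_iff]
      constructor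
      · linarith [hP.x00]
      · linarith [hP.x01, hP.L1]
    have hfr : Int.fract z.re = z.re := by
      rw [Int.fract, hfl]
      simp
    unfold ptS
    rw [hfr, if_neg (not_lt.mpr h1.le), if_pos h2, hfl]
    simp
  have hmain : ∀ Z : ℂ, |Z.im| < 1 / 2 → 0 < pos Z → pos Z < L →
      (if 0 ≤ Z.im then ptS θ x0 L D j σ (fl t (r j) G σ Z)
        else ptS θ x0 L D (j - 1) σ (fl t (r (j - 1)) G σ Z))
      = D.proj (D.pt (Sum.inr (Sum.inl ⟨σ, ((V + Z.im : ℝ) : AddCircle R)⟩)) (pos Z)) := by
    intro Z hZ h1 h2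
    have hZ' := abs_lt.mp hZ
    rcases le_or_gt 0 Z.im with h0 | h0
    · rw [if_pos h0]
      have e1 := hposU Z h0 hZ'.2
      rw [hptS j _ (by rw [e1]; linarith) (by rw [e1]; linarith), e1]
      have e2 : Eup B r (smallPt j σ (fl t (r j) G σ Z).im)
          = ⟨σ, ((V + Z.im : ℝ) : AddCircle R)⟩ := by
        have e3 : (fl t (r j) G σ Z).im * r j = Z.im := by
          simp only [fl]
          exact div_mul_cancel₀ _ (hr0 j).ne'
        have e4 : repO ((Z.im : ℝ) : AddCircle (r j)) = Z.im :=
          (hrep (r j) (hr0 j)).2.2.1 Z.im h0 (by linarith [hP.r1 j])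
        unfold Eup smallPt
        simp only
        rw [e3, e4]
      rw [e2]
      congr 2
      ring
    · rw [if_neg (not_le.mpr h0)]
      have e1 := hposD Z h0 (by linarith [hZ'.1])
      rw [hptS (j - 1) _ (by rw [e1]; linarith) (by rw [e1]; linarith), e1]
      have e2 : Eup B r (smallPt (j - 1) σ (fl t (r (j - 1)) G σ Z).im)
          = ⟨σ, ((V + Z.im : ℝ) : AddCircle R)⟩ := by
        have e3 : (fl t (r (j - 1)) G σ Z).im * r (j - 1) = Z.im := by
          simp only [fl]
          exact div_mul_cancel₀ _ (hr0 (j - 1)).ne'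
        have e5 : ((Z.im : ℝ) : AddCircle (r (j - 1)))
            = ((Z.im + r (j - 1) : ℝ) : AddCircle (r (j - 1))) := by
          rw [AddCircle.coe_add, AddCircle.coe_period, add_zero]
        have e4 : repO ((Z.im : ℝ) : AddCircle (r (j - 1))) = Z.im + r (j - 1) := by
          rw [e5]
          exact (hrep (r (j - 1)) (hr0 (j - 1))).2.2.1 _ (by linarith [hP.r1 (j - 1), hZ'.1])
            (by linarith)
        unfold Eup smallPt
        simp only
        rw [e3, e4]
        have e6 : VV B r (j - 1).val + (Z.im + r (j - 1)) = V + Z.im + e * R := by linarith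
        rw [e6]
        have e7 : ((V + Z.im + e * R : ℝ) : AddCircle R) = ((V + Z.im : ℝ) : AddCircle R) := by
          rcases he with h | h
          · subst h
            simp
          · subst h
            simp only [Nat.cast_one, one_mul]
            rw [AddCircle.coe_add, AddCircle.coe_period, add_zero]
        rw [e7]
      rw [e2]
      congr 2
      ring
  -- apply the interior lemma
  apply hlt (CC B r) D A hA c (pos ζ)
  · exact hs.1
  · rw [hwid]
    exact hs.2
  · have ev1 : ∀ᶠ Z : ℂ in 𝓝 ζ, |Z.im| < 1 / 2 := by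
      have : Continuous (fun Z : ℂ => |Z.im|) := Complex.continuous_im.abs
      exact this.continuousAt.eventually_lt continuousAt_const hζ
    have ev2 : ∀ᶠ Z : ℂ in 𝓝 ζ, 0 < pos Z :=
      continuousAt_const.eventually_lt hposc.continuousAt hs.1
    have ev3 : ∀ᶠ Z : ℂ in 𝓝 ζ, pos Z < L :=
      hposc.continuousAt.eventually_lt continuousAt_const hs.2
    filter_upwards [ev1, ev2, ev3] with Z h1 h2 h3
    rw [hmain Z h1 h2 h3, hbc]
    congr 2
    · show (Sum.inr (Sum.inl ⟨σ, ((V + Z.im : ℝ) : AddCircle R)⟩) : CC B r)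
        = Sum.inr (Sum.inl ⟨σ, ((Z.im - ζ.im : ℝ) : AddCircle R)
          + ((V + ζ.im : ℝ) : AddCircle R)⟩)
      rw [← AddCircle.coe_add]
      congr 3
      ring_nf
    · simp only [hpos]
      rw [show V + ζ.im + (Z.im - ζ.im) = V + Z.im by ring]
      ring

end Horo
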