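import Pool.Agent.Horo.FDefs

set_option autoImplicit false

open Topology Filter Set

namespace Horo

lemma wallAt_cont_G {θ ys a2 : ℝ} {G : ℝ → ℝ} (hG : Coc θ ys a2 G) : Continuous G := by
  rw [Metric.continuous_iff]
  intro b ε hε
  refine ⟨ε, hε, fun a ha => ?_⟩
  rw [Real.dist_eq] at ha ⊢
  exact (hG.lip a b).trans_lt ha

lemma wallAt_cont_fl {θ ys a2 : ℝ} {G : ℝ → ℝ} (hG : Coc θ ys a2 G) (t rr : ℝ) (σ : ℤˣ) :
    Continuous (fl t rr G σ) := by
  have hc := wallAt_cont_G hG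
  have h1 : Continuous fun Z : ℂ => Z.re - t * ((σ : ℤ) : ℝ) * G (Z.im / rr) := by
    have : Continuous fun Z : ℂ => G (Z.im / rr) := hc.comp (by fun_prop)
    exact Complex.continuous_re.sub (continuous_const.mul this)
  have h2 : Continuous fun Z : ℂ => Z.im / rr := by fun_prop
  have : fl t rr G σ = fun Z : ℂ => ((Z.re - t * ((σ : ℤ) : ℝ) * G (Z.im / rr) : ℝ) : ℂ)
      + ((Z.im / rr : ℝ) : ℂ) * Complex.I := by
    funext Z
    unfold fl
    apply Complex.ext <;> simp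
  rw [this]
  exact (Complex.continuous_ofReal.comp h1).add
    ((Complex.continuous_ofReal.comp h2).mul continuous_const)

section

variable {B : ℕ} {r : ZMod B → ℝ}

lemma wallAt_vadd_smallPt {j : ZMod B} (hr : r j ≠ 0) (σ : ℤˣ) (y u : ℝ) :
    u +ᵥ (smallPt j σ y : Cs B r) = smallPt j σ (y + u / r j) := by
  show (⟨(j, σ), ((u : ℝ) : AddCircle (r j)) + ((y * r j : ℝ) : AddCircle (r j))⟩ : Cs B r)
    = ⟨(j, σ), (((y + u / r j) * r j : ℝ) : AddCircle (r j))⟩
  congr 1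
  rw [← AddCircle.coe_add]
  congr 1
  field_simp
  ring

lemma wallAt_pt1 {θ x0 L : ℝ} (D : Diagram (CC B r)) (j : ZMod B) (σ : ℤˣ) (z : ℂ)
    (h0 : 0 ≤ z.re) (h1 : z.re < x0) (h2 : x0 < 1) :
    ptS θ x0 L D j σ z = D.proj (D.pt (Sum.inl (smallPt j σ z.im)) z.re) := by
  have hfl : ⌊z.re⌋ = 0 := by
    rw [Int.floor_eq_iff]; constructor
    · simpa using h0
    · push_cast; linarith
  have hfr : Int.fract z.re = z.re := by
    rw [Int.fract, hfl]; simp
  unfold ptS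
  rw [if_pos (by rw [hfr]; exact h1), hfl, hfr]
  simp

lemma wallAt_pt3 {θ x0 L : ℝ} (D : Diagram (CC B r)) (j : ZMod B) (σ : ℤˣ) (z : ℂ)
    (h0 : -x0 < z.re) (h1 : z.re < 0) (hx0 : x0 < 1 / 100) (hL0 : 0 < L) (hL : L < 1 / 100) :
    ptS θ x0 L D j σ z
      = D.proj (D.pt (Sum.inr (Sum.inr (smallPt j σ (z.im + θ)))) (1 + z.re - x0 - L)) := by
  have hfl : ⌊z.re⌋ = -1 := by
    rw [Int.floor_eq_iff]; constructor
    · push_cast; linarith
    · push_cast; linarith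
  have hfr : Int.fract z.re = 1 + z.re := by
    rw [Int.fract, hfl]; push_cast; ring
  unfold ptS
  rw [if_neg (by rw [hfr]; linarith), if_neg (by rw [hfr]; linarith), hfl, hfr]
  have : z.im - ((-1 : ℤ) : ℝ) * θ = z.im + θ := by push_cast; ring
  rw [this]

end

/-- Crossing the left seam of block `j`. -/
theorem wallAt_seam (h1 : Stmt_ltInt) (h2 : Stmt_ltSeam) (hb : Stmt_baseC) (hbc : Stmt_bendCoc)
    (B : ℕ) [NeZero B] (r : ZMod B → ℝ) (θ ys x0 L t a2 : ℝ) (G : ℝ → ℝ)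
    (hP : Par B r θ ys x0 L t a2 G) (D : Diagram (CC B r)) (hD : IsDiag B r θ ys t a2 G x0 L D)
    (A : AbDiff D.X) (hA : GoodAb D A) (j : ZMod B) (σ σ' : ℤˣ) (ζ : ℂ)
    (hx : |(fl t (r j) G σ ζ).re| < x0)
    (hτ : D.τ (Sum.inl (smallPt j σ (ζ.im / r j))) = Sum.inl (smallPt j σ (ζ.im / r j)))
    (hR : Rup B r θ ys (smallPt j σ' (ζ.im / r j + θ)) = smallPt j σ (ζ.im / r j))
    (hGG : ∀ᶠ y' in 𝓝 (ζ.im / r j), ((σ' : ℤ) : ℝ) * (G (y' + θ) - G (ζ.im / r j + θ))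
      = ((σ : ℤ) : ℝ) * (G y' - G (ζ.im / r j))) :
    LTAt A (fun Z => if 0 ≤ (fl t (r j) G σ Z).re then ptS θ x0 L D j σ (fl t (r j) G σ Z)
      else ptS θ x0 L D j σ' (fl t (r j) G σ Z)) ζ := by
  have hB : 0 < B := by have := hP.B2; omega
  have hr1 : ∀ j, 1 ≤ r j := hP.r1
  have hr0 : ∀ j, 0 < r j := fun j => lt_of_lt_of_le one_pos (hr1 j)
  obtain ⟨i1, i2, i3, i4⟩ := hb B r hB hr0
  have ht := hP.t1
  have hx01 := hP.x01
  have hL1 := hP.L1
  have hL0 := hP.L0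
  have hx00 := hP.x00
  obtain ⟨-, -, hb1, -, hb3⟩ := hbc B r θ ys t a2 G hB hr1 hP.coc hP.t0 (by linarith)
  have hrj := (hr0 j).ne'
  -- bends
  have bend1 : ∀ u, D.bend (Sum.inl (smallPt j σ (ζ.im / r j))) u
      = t * ((σ : ℤ) : ℝ) * (G ((ζ.im + u) / r j) - G (ζ.im / r j)) := by
    intro u
    rw [hD.bend]
    have := hb1 j σ (ζ.im / r j * r j) u
    unfold smallPt
    rw [this, div_mul_cancel₀ _ hrj]
  have bend3 : ∀ u, D.bend (Sum.inr (Sum.inr (smallPt j σ' (ζ.im / r j + θ)))) u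
      = t * ((σ' : ℤ) : ℝ) * (G ((ζ.im + u) / r j + θ) - G (ζ.im / r j + θ)) := by
    intro u
    rw [hD.bend]
    have := hb3 j σ' ((ζ.im / r j + θ) * r j) u
    unfold smallPt
    rw [this]
    congr 3
    · congr 1; field_simp; ring
    · field_simp
  have hfc : Continuous (fl t (r j) G σ) := wallAt_cont_fl hP.coc t (r j) σ
  have hre : ∀ Z, (fl t (r j) G σ Z).re = Z.re - t * ((σ : ℤ) : ℝ) * G (Z.im / r j) :=
    fun Z => rfl
  have him : ∀ Z, (fl t (r j) G σ Z).im = Z.im / r j := fun Z => rfl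
  have hre_c : Continuous fun Z => (fl t (r j) G σ Z).re := Complex.continuous_re.comp hfc
  obtain ⟨hxa, hxb⟩ := abs_lt.1 hx
  have ev1 : ∀ᶠ Z in 𝓝 ζ, -x0 < (fl t (r j) G σ Z).re :=
    hre_c.continuousAt.eventually (lt_mem_nhds hxa)
  have ev2 : ∀ᶠ Z in 𝓝 ζ, (fl t (r j) G σ Z).re < x0 :=
    hre_c.continuousAt.eventually (gt_mem_nhds hxb)
  have evG : ∀ᶠ Z : ℂ in 𝓝 ζ, ((σ' : ℤ) : ℝ) * (G (Z.im / r j + θ) - G (ζ.im / r j + θ))
      = ((σ : ℤ) : ℝ) * (G (Z.im / r j) - G (ζ.im / r j)) := by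
    have hc : Continuous fun Z : ℂ => Z.im / r j := by fun_prop
    exact hc.continuousAt.eventually hGG
  rcases lt_trichotomy (fl t (r j) G σ ζ).re 0 with hneg | hzero | hpos
  · -- to the left
    have ev3 : ∀ᶠ Z in 𝓝 ζ, (fl t (r j) G σ Z).re < 0 :=
      hre_c.continuousAt.eventually (gt_mem_nhds hneg)
    refine h1 (CC B r) D A hA (Sum.inr (Sum.inr (smallPt j σ' (ζ.im / r j + θ))))
      (1 + (fl t (r j) G σ ζ).re - x0 - L) _ ζ (by linarith) ?_ ?_
    · rw [hD.wid]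
      show _ < 1 - x0 - L
      linarith
    · filter_upwards [ev1, ev3, evG] with Z e1 e3 eG
      rw [if_neg (not_le.2 e3), wallAt_pt3 D j σ' _ e1 e3 hx01 hL0 hL1, him]
      have e5 : (Z.im - ζ.im) +ᵥ (Sum.inr (Sum.inr (smallPt j σ' (ζ.im / r j + θ))) : CC B r)
          = Sum.inr (Sum.inr (smallPt j σ' (Z.im / r j + θ))) := by
        show Sum.inr (Sum.inr ((Z.im - ζ.im) +ᵥ (smallPt j σ' (ζ.im / r j + θ) : Cs B r))) = _
        rw [wallAt_vadd_smallPt hrj]
        congr 3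
        field_simp
        ring
      refine congrArg D.proj (congrArg₂ D.pt e5.symm ?_)
      have e6 : ζ.im + (Z.im - ζ.im) = Z.im := by ring
      rw [bend3, e6, mul_assoc t, eG, hre, hre]
      ring
  · -- on the seam
    refine h2 (CC B r) D A hA (Sum.inl (smallPt j σ (ζ.im / r j))) _ ζ hτ ?_
    filter_upwards [ev1, ev2, evG] with Z e1 e2 eG
    have e6 : ζ.im + (Z.im - ζ.im) = Z.im := by ring
    have e7 : (Z.re - ζ.re) - D.bend (Sum.inl (smallPt j σ (ζ.im / r j))) (Z.im - ζ.im)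
        = (fl t (r j) G σ Z).re := by
      rw [bend1, e6]
      have := hzero
      rw [hre] at this
      rw [hre]
      linarith
    rw [e7]
    constructor
    · intro hnn
      rw [if_pos hnn, wallAt_pt1 D j σ _ hnn e2 (by linarith), him]
      unfold Diagram.ptR
      have e5 : (Z.im - ζ.im) +ᵥ (Sum.inl (smallPt j σ (ζ.im / r j)) : CC B r)
          = Sum.inl (smallPt j σ (Z.im / r j)) := by
        show Sum.inl ((Z.im - ζ.im) +ᵥ (smallPt j σ (ζ.im / r j) : Cs B r)) = _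
        rw [wallAt_vadd_smallPt hrj]
        congr 2
        field_simp
        ring
      exact congrArg D.proj (congrArg₂ D.pt e5.symm rfl)
    · intro hng
      rw [if_neg (not_le.2 hng), wallAt_pt3 D j σ' _ e1 hng hx01 hL0 hL1, him]
      unfold Diagram.ptL
      have e8 : D.up.symm (Sum.inl (smallPt j σ (ζ.im / r j)))
          = Sum.inr (Sum.inr (smallPt j σ' (ζ.im / r j + θ))) := by
        rw [Equiv.symm_apply_eq, hD.up3, hR]
      have e5 : (Z.im - ζ.im) +ᵥ (Sum.inr (Sum.inr (smallPt j σ' (ζ.im / r j + θ))) : CC B r)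
          = Sum.inr (Sum.inr (smallPt j σ' (Z.im / r j + θ))) := by
        show Sum.inr (Sum.inr ((Z.im - ζ.im) +ᵥ (smallPt j σ' (ζ.im / r j + θ) : Cs B r))) = _
        rw [wallAt_vadd_smallPt hrj]
        congr 3
        field_simp
        ring
      rw [e8, hD.wid]
      refine congrArg D.proj (congrArg₂ D.pt e5.symm ?_)
      show _ = (1 - x0 - L) - _
      ring
  · -- to the right
    have ev3 : ∀ᶠ Z in 𝓝 ζ, 0 < (fl t (r j) G σ Z).re :=
      hre_c.continuousAt.eventually (lt_mem_nhds hpos)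
    refine h1 (CC B r) D A hA (Sum.inl (smallPt j σ (ζ.im / r j))) (fl t (r j) G σ ζ).re _ ζ
      hpos ?_ ?_
    · rw [hD.wid]
      exact hxb
    · filter_upwards [ev2, ev3] with Z e2 e3
      rw [if_pos e3.le, wallAt_pt1 D j σ _ e3.le e2 (by linarith), him]
      have e5 : (Z.im - ζ.im) +ᵥ (Sum.inl (smallPt j σ (ζ.im / r j)) : CC B r)
          = Sum.inl (smallPt j σ (Z.im / r j)) := by
        show Sum.inl ((Z.im - ζ.im) +ᵥ (smallPt j σ (ζ.im / r j) : Cs B r)) = _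
        rw [wallAt_vadd_smallPt hrj]
        congr 2
        field_simp
        ring
      have e6 : ζ.im + (Z.im - ζ.im) = Z.im := by ring
      refine congrArg D.proj (congrArg₂ D.pt e5.symm ?_)
      rw [bend1, e6, hre, hre]
      ring

/-- Local translation maps across the wall. -/
theorem wallAt (h1 : Stmt_ltInt) (h2 : Stmt_ltSeam) (h3 : Stmt_regPts) (h4 : Stmt_rep)
    (hb : Stmt_baseC) (hbc : Stmt_bendCoc) : Stmt_wallAt := by
  intro B _ r θ ys x0 L t a2 G hP D hD A hA j σ ζ hx hy0 hy1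
  have hr0 : 0 < r j := lt_of_lt_of_le one_pos (hP.r1 j)
  have hy0' : 0 < ζ.im / r j := hy0
  have hy1' : ζ.im / r j < ys := hy1
  have hys := hP.ys1
  have hfr : Int.fract (ζ.im / r j) = ζ.im / r j := by
    rw [Int.fract_eq_self]; constructor <;> linarith
  refine wallAt_seam h1 h2 hb hbc B r θ ys x0 L t a2 G hP D hD A hA j σ (-σ) ζ hx ?_ ?_ ?_
  · rw [(h3 B r θ ys x0 L t a2 G hP D hD j σ (ζ.im / r j)).1, hfr]
    exact ⟨hy0'.ne', hy1'.ne⟩
  · unfold Rup smallPt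
    have e : (((ζ.im / r j + θ) * r j : ℝ) : AddCircle (r j)) - ((θ * r j : ℝ) : AddCircle (r j))
        = ((ζ.im / r j * r j : ℝ) : AddCircle (r j)) := by
      rw [← AddCircle.coe_sub]; congr 1; ring
    have hrep : repO ((ζ.im / r j * r j : ℝ) : AddCircle (r j)) = ζ.im / r j * r j := by
      refine (h4 (r j) hr0).2.2.1 _ (by positivity) ?_
      nlinarith
    simp only
    rw [e, if_pos (by rw [hrep]; exact mul_lt_mul_of_pos_right hy1' hr0), neg_neg]
  · have : ∀ᶠ y' in 𝓝 (ζ.im / r j), 0 < y' ∧ y' < ys :=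
      (lt_mem_nhds hy0').and (gt_mem_nhds hy1')
    filter_upwards [this] with y' hy'
    have g1 := hP.coc.wall y' hy'.1.le hy'.2.le
    have g2 := hP.coc.wall (ζ.im / r j) hy0'.le hy1'.le
    have g3 : (((-σ : ℤˣ) : ℤ) : ℝ) = -((σ : ℤ) : ℝ) := by push_cast; ring
    rw [g3]
    have g4 : G (y' + θ) - G (ζ.im / r j + θ) = -(G y' - G (ζ.im / r j)) := by linarith
    rw [g4]; ring

end Horo
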